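import Mathlib

/-!
# KS: four points of a bidouble-like pencil of conics (pure algebra in a field)

Points `(z, w)` with `z ^ 2 = a w + f`, `w ^ 2 = b z + g`.
-/

namespace Pool.Agent.Helper50.KS

variable {N : Type*} [Field N] {a b f g : N}

/-- `(z, w)` is a point of the intersection of the two conics -/
def Pt (a b f g z w : N) : Prop := z ^ 2 = a * w + f ∧ w ^ 2 = b * z + g

section two

variable {z₁ w₁ z₂ w₂ τ : N}

theorem slope_a (h₁ : Pt a b f g z₁ w₁) (h₂ : Pt a b f g z₂ w₂) (hw : w₁ ≠ w₂)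
    (hτ : z₁ - z₂ = τ * (w₁ - w₂)) : τ * (z₁ + z₂) = a := by
  have h3 : (w₁ - w₂) * (τ * (z₁ + z₂) - a) = 0 := by
    have := h₁.1
    have := h₂.1
    linear_combination h₁.1 - h₂.1 - (z₁ + z₂) * hτ
  rcases mul_eq_zero.1 h3 with h | h
  · exact absurd (sub_eq_zero.1 h) hw
  · exact sub_eq_zero.1 h

theorem slope_b (h₁ : Pt a b f g z₁ w₁) (h₂ : Pt a b f g z₂ w₂) (hw : w₁ ≠ w₂)
    (hτ : z₁ - z₂ = τ * (w₁ - w₂)) : w₁ + w₂ = b * τ := by
  have h3 : (w₁ - w₂) * (w₁ + w₂ - b * τ) = 0 := by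
    linear_combination h₁.2 - h₂.2 + b * hτ
  rcases mul_eq_zero.1 h3 with h | h
  · exact absurd (sub_eq_zero.1 h) hw
  · exact sub_eq_zero.1 h

/-- the resolvent -/
theorem resolvent (h₁ : Pt a b f g z₁ w₁) (h₂ : Pt a b f g z₂ w₂) (hw : w₁ ≠ w₂)
    (hτ : z₁ - z₂ = τ * (w₁ - w₂)) :
    b ^ 2 * τ ^ 6 - 4 * g * τ ^ 4 + 4 * f * τ ^ 2 - a ^ 2 = 0 := by
  have ha := slope_a h₁ h₂ hw hτ
  have hb := slope_b h₁ h₂ hw hτ
  obtain ⟨h1, h2⟩ := h₁
  obtain ⟨h3, h4⟩ := h₂
  have e1 : τ ^ 2 * ((z₁ + z₂) ^ 2 + (z₁ - z₂) ^ 2) = 2 * τ ^ 2 * (a * (w₁ + w₂) + 2 * f) := by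
    linear_combination 2 * τ ^ 2 * (h1 + h3)
  have e2 : τ ^ 4 * ((w₁ + w₂) ^ 2 + (w₁ - w₂) ^ 2) = 2 * τ ^ 4 * (b * (z₁ + z₂) + 2 * g) := by
    linear_combination 2 * τ ^ 4 * (h2 + h4)
  have e3 : τ ^ 2 * (z₁ + z₂) ^ 2 = a ^ 2 := by rw [← ha]; ring
  have e4 : (w₁ + w₂) ^ 2 = b ^ 2 * τ ^ 2 := by rw [hb]; ring
  have e5 : (z₁ - z₂) ^ 2 = τ ^ 2 * (w₁ - w₂) ^ 2 := by rw [hτ]; ring
  have e6 : τ ^ 4 * (b * (z₁ + z₂)) = τ ^ 3 * (b * a) := by rw [← ha]; ring
  have e7 : τ ^ 2 * (a * (w₁ + w₂)) = τ ^ 3 * (b * a) := by rw [hb]; ring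
  linear_combination e2 - e1 + e3 - τ ^ 4 * e4 + τ ^ 2 * e5 + 2 * e6 - 2 * e7

/-- two points with the same `w` -/
theorem same_w (h₁ : Pt a b f g z₁ w₁) (h₂ : Pt a b f g z₂ w₂) (hw : w₁ = w₂) (hz : z₁ ≠ z₂) :
    b = 0 := by
  have h3 : b * (z₁ - z₂) = 0 := by
    have := h₁.2
    have := h₂.2
    subst hw
    linear_combination h₂.2 - h₁.2
  rcases mul_eq_zero.1 h3 with h | h
  · exact h
  · exact absurd (sub_eq_zero.1 h) hz

/-- two points with the same `z` -/
theorem same_z (h₁ : Pt a b f g z₁ w₁) (h₂ : Pt a b f g z₂ w₂) (hz : z₁ = z₂) (hw : w₁ ≠ w₂) :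
    a = 0 := by
  have h3 : a * (w₁ - w₂) = 0 := by
    subst hz
    linear_combination h₂.1 - h₁.1
  rcases mul_eq_zero.1 h3 with h | h
  · exact h
  · exact absurd (sub_eq_zero.1 h) hw

end two

section four

variable [CharZero N] {z₀ w₀ z₁ w₁ z₂ w₂ z₃ w₃ : N}

theorem compl_ne (h₀ : Pt a b f g z₀ w₀) (h₁ : Pt a b f g z₁ w₁) (h₂ : Pt a b f g z₂ w₂)
    (h₃ : Pt a b f g z₃ w₃) (hw : w₀ + w₁ + w₂ + w₃ = 0) (h01 : w₀ ≠ w₁)
    (h23 : z₂ ≠ z₃ ∨ w₂ ≠ w₃) : w₂ ≠ w₃ := by
  intro h
  have hz23 : z₂ ≠ z₃ := by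
    rcases h23 with h' | h'
    · exact h'
    · exact absurd h h'
  have hb := same_w h₂ h₃ h hz23
  subst hb
  have e1 : (w₀ - w₁) * (w₀ + w₁) = 0 := by linear_combination h₀.2 - h₁.2
  have e2 : w₀ + w₁ = 0 := by
    rcases mul_eq_zero.1 e1 with h' | h'
    · exact absurd (sub_eq_zero.1 h') h01
    · exact h'
  have e3 : w₂ = 0 := by
    have : (2 : N) * w₂ = 0 := by linear_combination hw - e2 + h
    rcases mul_eq_zero.1 this with h' | h'
    · norm_num at h'
    · exact h'
  have e4 : g = 0 := by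
    have := h₂.2
    rw [e3] at this
    linear_combination -this
  have e5 : w₀ = 0 := by
    have := h₀.2
    rw [e4] at this
    have h' : w₀ ^ 2 = 0 := by linear_combination this
    exact pow_eq_zero_iff (two_ne_zero) |>.1 h'
  have e6 : w₁ = 0 := by linear_combination e2 - e5
  exact h01 (by rw [e5, e6])

theorem compl_slope (h₀ : Pt a b f g z₀ w₀) (h₁ : Pt a b f g z₁ w₁) (h₂ : Pt a b f g z₂ w₂)
    (h₃ : Pt a b f g z₃ w₃) (hz : z₀ + z₁ + z₂ + z₃ = 0) (hw : w₀ + w₁ + w₂ + w₃ = 0)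
    (h01 : w₀ ≠ w₁) (h23 : w₂ ≠ w₃) (h02 : z₀ ≠ z₂ ∨ w₀ ≠ w₂) (h03 : z₀ ≠ z₃ ∨ w₀ ≠ w₃)
    {τ : N} (hτ : z₀ - z₁ = τ * (w₀ - w₁)) : z₂ - z₃ = (-τ) * (w₂ - w₃) := by
  obtain ⟨τ', hτ'⟩ : ∃ τ', z₂ - z₃ = τ' * (w₂ - w₃) :=
    ⟨(z₂ - z₃) / (w₂ - w₃), by rw [div_mul_cancel₀ _ (sub_ne_zero.2 h23)]⟩
  have hb := slope_b h₀ h₁ h01 hτ
  have hb' := slope_b h₂ h₃ h23 hτ'
  have ha := slope_a h₀ h₁ h01 hτ
  have ha' := slope_a h₂ h₃ h23 hτ'
  by_cases hb0 : b = 0
  · by_cases ha0 : a = 0
    · subst hb0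
      subst ha0
      have w1 : w₁ = -w₀ := by linear_combination hb
      have w3 : w₃ = -w₂ := by linear_combination hb'
      have hw0 : w₀ ≠ 0 := by
        rintro rfl
        exact h01 (by rw [w1, neg_zero])
      have hw2 : w₂ ≠ 0 := by
        rintro rfl
        exact h23 (by rw [w3, neg_zero])
      have e2 : (w₂ - w₀) * (w₂ + w₀) = 0 := by linear_combination h₂.2 - h₀.2
      have f2 : (z₂ - z₀) * (z₂ + z₀) = 0 := by linear_combination h₂.1 - h₀.1
      have f1 : (z₁ - z₀) * (z₁ + z₀) = 0 := by linear_combination h₁.1 - h₀.1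
      have f3 : (z₃ - z₀) * (z₃ + z₀) = 0 := by linear_combination h₃.1 - h₀.1
      have two : (2 : N) ≠ 0 := two_ne_zero
      rcases mul_eq_zero.1 f1 with f1 | f1
      · -- `z₁ = z₀`
        have z1 : z₁ = z₀ := by linear_combination f1
        have t0 : τ = 0 := by
          have h' : τ * (w₀ - w₁) = 0 := by linear_combination -hτ - z1
          rcases mul_eq_zero.1 h' with h' | h'
          · exact h'
          · exact absurd (sub_eq_zero.1 h') h01
        have hs : z₂ + z₃ = -(2 * z₀) := by linear_combination hz - z1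
        have : z₂ = -z₀ ∧ z₃ = -z₀ := by
          rcases mul_eq_zero.1 f2 with f2 | f2 <;> rcases mul_eq_zero.1 f3 with f3 | f3
          · have hz0 : z₀ = 0 := by
              have : (4 : N) * z₀ = 0 := by linear_combination hs - f2 - f3
              rcases mul_eq_zero.1 this with h' | h'
              · norm_num at h'
              · exact h'
            exact ⟨by linear_combination f2 + 2 * hz0, by linear_combination f3 + 2 * hz0⟩
          · have hz0 : z₀ = 0 := by
              have : (2 : N) * z₀ = 0 := by linear_combination hs - f2 - f3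
              rcases mul_eq_zero.1 this with h' | h'
              · exact absurd h' two
              · exact h'
            exact ⟨by linear_combination f2 + 2 * hz0, by linear_combination f3⟩
          · have hz0 : z₀ = 0 := by
              have : (2 : N) * z₀ = 0 := by linear_combination hs - f2 - f3
              rcases mul_eq_zero.1 this with h' | h'
              · exact absurd h' two
              · exact h'
            exact ⟨by linear_combination f2, by linear_combination f3 + 2 * hz0⟩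
          · exact ⟨by linear_combination f2, by linear_combination f3⟩
        rw [this.1, this.2, t0]
        ring
      · -- `z₁ = - z₀`
        have z1 : z₁ = -z₀ := by linear_combination f1
        have z3 : z₃ = -z₂ := by linear_combination hz - z1
        have t0 : z₀ = τ * w₀ := by
          have h' : (2 : N) * (z₀ - τ * w₀) = 0 := by linear_combination hτ - τ * w1 + z1
          rcases mul_eq_zero.1 h' with h' | h'
          · exact absurd h' two
          · linear_combination h'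
        rcases mul_eq_zero.1 e2 with e2 | e2
        · -- `w₂ = w₀`
          have hz2 : z₂ = -z₀ := by
            rcases mul_eq_zero.1 f2 with f2 | f2
            · exfalso
              rcases h02 with h' | h'
              · exact h' (by linear_combination -f2)
              · exact h' (by linear_combination -e2)
            · linear_combination f2
          rw [z3, hz2, w3]
          linear_combination -2 * t0 + 2 * τ * e2
        · have hz2 : z₂ = z₀ := by
            rcases mul_eq_zero.1 f2 with f2 | f2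
            · linear_combination f2
            · exfalso
              rcases h03 with h' | h'
              · exact h' (by linear_combination f2 - z3)
              · exact h' (by linear_combination e2 - w3)
          rw [z3, hz2, w3]
          linear_combination 2 * t0 + 2 * τ * e2
    · -- `a ≠ 0`
      have hs : z₀ + z₁ ≠ 0 := by
        intro h'
        rw [h', mul_zero] at ha
        exact ha0 ha.symm
      have : τ' = -τ := by
        have h' : (z₀ + z₁) * (τ' + τ) = 0 := by linear_combination ha - ha' + τ' * hz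
        rcases mul_eq_zero.1 h' with h' | h'
        · exact absurd h' hs
        · linear_combination h'
      rw [hτ', this]
  · have : τ' = -τ := by
      have h' : b * (τ' + τ) = 0 := by linear_combination hw - hb - hb'
      rcases mul_eq_zero.1 h' with h' | h'
      · exact absurd h' hb0
      · linear_combination h'
    rw [hτ', this]

/-- different pairs with a point in common have different slopes -/
theorem slope_ne (h₀ : Pt a b f g z₀ w₀) (h₁ : Pt a b f g z₁ w₁) (h₂ : Pt a b f g z₂ w₂)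
    (h01 : w₀ ≠ w₁) (h02 : w₀ ≠ w₂) (h12 : z₁ ≠ z₂ ∨ w₁ ≠ w₂) {τ : N} (hτ : z₀ - z₁ = τ * (w₀ - w₁)) :
    z₀ - z₂ ≠ τ * (w₀ - w₂) := by
  intro hτ'
  have hb := slope_b h₀ h₁ h01 hτ
  have hb' := slope_b h₀ h₂ h02 hτ'
  have hw : w₁ = w₂ := by linear_combination hb - hb'
  have hz : z₁ = z₂ := by linear_combination hτ' - hτ + τ * hw
  rcases h12 with h | h
  · exact h hz
  · exact h hw

end four

end Pool.Agent.Helper50.KS
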