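import Mathlib
import Pool.Agent.Helper50.KS.Alg

/-!
# KS: the quartic extension `F = R (z, w)`, `z ^ 2 = a w + f`, `w ^ 2 = b z + g`
-/

namespace Pool.Agent.Helper50.KS

/-- the extension `F = R (z, w)` of degree four with `z ^ 2 = a w + f`, `w ^ 2 = b z + g` -/
structure Quart (R F : Type*) [Field R] [Field F] [Algebra R F] where
  (a b f g : R)
  (z w : F)
  pt : Pt (algebraMap R F a) (algebraMap R F b) (algebraMap R F f) (algebraMap R F g) z w
  gen : IntermediateField.adjoin R {z, w} = ⊤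
  deg : Module.finrank R F = 4

section basis

variable {R F : Type*} [Field R] [Field F] [Algebra R F] (Q : Quart R F)

namespace Quart

include Q in
theorem fd : FiniteDimensional R F := FiniteDimensional.of_finrank_pos (by rw [Q.deg]; norm_num)

/-- the four elements `1, z, w, z w` -/
noncomputable def vec : Fin 4 → F := ![1, Q.z, Q.w, Q.z * Q.w]

theorem vec0 : Q.vec 0 = 1 := rfl
theorem vec1 : Q.vec 1 = Q.z := rfl
theorem vec2 : Q.vec 2 = Q.w := rfl
theorem vec3 : Q.vec 3 = Q.z * Q.w := rfl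

theorem z0 : Q.z * Q.vec 0 = Q.vec 1 := by rw [vec0, vec1, mul_one]
theorem z1 : Q.z * Q.vec 1 = Q.a • Q.vec 2 + Q.f • Q.vec 0 := by
  rw [vec0, vec1, vec2, Algebra.smul_def, Algebra.smul_def]
  linear_combination Q.pt.1
theorem z2 : Q.z * Q.vec 2 = Q.vec 3 := rfl
theorem z3 : Q.z * Q.vec 3 = (Q.a * Q.b) • Q.vec 1 + (Q.a * Q.g) • Q.vec 0 + Q.f • Q.vec 2 := by
  rw [vec0, vec1, vec2, vec3, Algebra.smul_def, Algebra.smul_def, Algebra.smul_def, map_mul, map_mul]
  linear_combination Q.w * Q.pt.1 + algebraMap R F Q.a * Q.pt.2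
theorem w0 : Q.w * Q.vec 0 = Q.vec 2 := by rw [vec0, vec2, mul_one]
theorem w1 : Q.w * Q.vec 1 = Q.vec 3 := by rw [vec1, vec3, mul_comm]
theorem w2 : Q.w * Q.vec 2 = Q.b • Q.vec 1 + Q.g • Q.vec 0 := by
  rw [vec0, vec1, vec2, Algebra.smul_def, Algebra.smul_def]
  linear_combination Q.pt.2
theorem w3 : Q.w * Q.vec 3 = (Q.b * Q.a) • Q.vec 2 + (Q.b * Q.f) • Q.vec 0 + Q.g • Q.vec 1 := by
  rw [vec0, vec1, vec2, vec3, Algebra.smul_def, Algebra.smul_def, Algebra.smul_def, map_mul, map_mul]
  linear_combination Q.z * Q.pt.2 + algebraMap R F Q.b * Q.pt.1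

theorem span : Submodule.span R (Set.range Q.vec) = ⊤ := by
  have hfd := Q.fd
  set S := Submodule.span R (Set.range Q.vec) with hS
  have hv : ∀ i, Q.vec i ∈ S := fun i => Submodule.subset_span ⟨i, rfl⟩
  have hz : ∀ y ∈ S, Q.z * y ∈ S := by
    intro y hy
    have : S ≤ S.comap (LinearMap.mulLeft R Q.z) := by
      rw [hS, Submodule.span_le]
      rintro _ ⟨i, rfl⟩
      show Q.z * Q.vec i ∈ S
      fin_cases i
      · show Q.z * Q.vec 0 ∈ S
        rw [Q.z0]
        exact hv 1
      · show Q.z * Q.vec 1 ∈ S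
        rw [Q.z1]
        exact S.add_mem (S.smul_mem _ (hv 2)) (S.smul_mem _ (hv 0))
      · show Q.z * Q.vec 2 ∈ S
        rw [Q.z2]
        exact hv 3
      · show Q.z * Q.vec 3 ∈ S
        rw [Q.z3]
        exact S.add_mem (S.add_mem (S.smul_mem _ (hv 1)) (S.smul_mem _ (hv 0))) (S.smul_mem _ (hv 2))
    exact this hy
  have hw : ∀ y ∈ S, Q.w * y ∈ S := by
    intro y hy
    have : S ≤ S.comap (LinearMap.mulLeft R Q.w) := by
      rw [hS, Submodule.span_le]
      rintro _ ⟨i, rfl⟩
      show Q.w * Q.vec i ∈ S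
      fin_cases i
      · show Q.w * Q.vec 0 ∈ S
        rw [Q.w0]
        exact hv 2
      · show Q.w * Q.vec 1 ∈ S
        rw [Q.w1]
        exact hv 3
      · show Q.w * Q.vec 2 ∈ S
        rw [Q.w2]
        exact S.add_mem (S.smul_mem _ (hv 1)) (S.smul_mem _ (hv 0))
      · show Q.w * Q.vec 3 ∈ S
        rw [Q.w3]
        exact S.add_mem (S.add_mem (S.smul_mem _ (hv 2)) (S.smul_mem _ (hv 0))) (S.smul_mem _ (hv 1))
    exact this hy
  have hadj : Algebra.adjoin R ({Q.z, Q.w} : Set F) = ⊤ := by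
    have h := IntermediateField.adjoin_toSubalgebra (F := R) (E := F) {Q.z, Q.w}
    rw [Q.gen, IntermediateField.top_toSubalgebra] at h
    exact h.symm
  have key : ∀ x ∈ Algebra.adjoin R ({Q.z, Q.w} : Set F), ∀ y ∈ S, x * y ∈ S := by
    intro x hx
    induction hx using Algebra.adjoin_induction with
    | mem x hx =>
      rcases hx with rfl | hx
      · exact hz
      · rw [Set.mem_singleton_iff] at hx
        subst hx
        exact hw
    | algebraMap r =>
      intro y hy
      rw [← Algebra.smul_def]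
      exact S.smul_mem _ hy
    | add x y _ _ hx hy =>
      intro u hu
      rw [add_mul]
      exact S.add_mem (hx u hu) (hy u hu)
    | mul x y _ _ hx hy =>
      intro u hu
      rw [mul_assoc]
      exact hx _ (hy u hu)
  rw [eq_top_iff]
  intro x _
  have h1 := key x (by rw [hadj]; trivial) (Q.vec 0) (hv 0)
  rwa [Q.vec0, mul_one] at h1

/-- the basis `1, z, w, z w` -/
noncomputable def bas : Module.Basis (Fin 4) R F :=
  basisOfTopLeSpanOfCardEqFinrank Q.vec Q.span.ge (by rw [Q.deg]; simp)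

theorem bas_apply (i : Fin 4) : Q.bas i = Q.vec i := by
  rw [bas, coe_basisOfTopLeSpanOfCardEqFinrank]

theorem repr_vec (i j : Fin 4) : Q.bas.repr (Q.vec i) j = if i = j then 1 else 0 := by
  rw [← Q.bas_apply, Module.Basis.repr_self, Finsupp.single_apply]

theorem trace_z : Algebra.trace R F Q.z = 0 := by
  rw [Algebra.trace_eq_matrix_trace Q.bas, Matrix.trace]
  simp only [Matrix.diag_apply, Algebra.leftMulMatrix_eq_repr_mul, Fin.sum_univ_four, Q.bas_apply]
  rw [Q.z0, Q.z1, Q.z2, Q.z3]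
  simp [repr_vec]

theorem trace_w : Algebra.trace R F Q.w = 0 := by
  rw [Algebra.trace_eq_matrix_trace Q.bas, Matrix.trace]
  simp only [Matrix.diag_apply, Algebra.leftMulMatrix_eq_repr_mul, Fin.sum_univ_four, Q.bas_apply]
  rw [Q.w0, Q.w1, Q.w2, Q.w3]
  simp [repr_vec]

/-- `1, z, w` are linearly independent -/
theorem indep (x y u : R) (h : algebraMap R F x * Q.z + algebraMap R F y * Q.w + algebraMap R F u = 0) :
    x = 0 ∧ y = 0 ∧ u = 0 := by
  have h1 : x • Q.vec 1 + y • Q.vec 2 + u • Q.vec 0 = 0 := by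
    rw [Algebra.smul_def, Algebra.smul_def, Algebra.smul_def, vec0, vec1, vec2, mul_one]
    exact h
  have h2 := congrArg (fun v => Q.bas.repr v) h1
  refine ⟨?_, ?_, ?_⟩
  · have := DFunLike.congr_fun h2 1
    simpa [repr_vec] using this
  · have := DFunLike.congr_fun h2 2
    simpa [repr_vec] using this
  · have := DFunLike.congr_fun h2 0
    simpa [repr_vec] using this

end Quart

end basis

end Pool.Agent.Helper50.KS
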