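import Mathlib
import Pool.Agent.Helper50.KS.Quart

/-!
# KS: the four points over a normal extension
-/

namespace Pool.Agent.Helper50.KS

section general

variable {R F N : Type*} [Field R] [CharZero R] [Field F] [Algebra R F] [Field N] [Algebra R N]
  [Algebra F N] [IsScalarTower R F N] [Normal R N] [FiniteDimensional R F]

omit [CharZero R] in
theorem splits_of_normal (x : F) : ((minpoly R x).map (algebraMap R N)).Splits := by
  have h := Normal.splits (F := R) (K := N) inferInstance (algebraMap F N x)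
  rwa [minpoly.algebraMap_eq (algebraMap F N).injective x] at h

variable (N) in
theorem sum_emb [Fintype (F →ₐ[R] N)] (x : F) :
    ∑ ψ : F →ₐ[R] N, ψ x = algebraMap R N (Algebra.trace R F x) := by
  have hc1 : Fintype.card (F →ₐ[R] N) = Module.finrank R F := by
    rw [Fintype.card_eq_nat_card]
    exact AlgHom.natCard_of_splits R F N splits_of_normal
  have hc2 : Fintype.card (F →ₐ[R] AlgebraicClosure N) = Module.finrank R F := by
    rw [Fintype.card_eq_nat_card]
    exact AlgHom.natCard_of_splits R F _ (fun _ => IsAlgClosed.splits _)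
  have hb : Function.Bijective (fun ψ : F →ₐ[R] N => (IsScalarTower.toAlgHom R N (AlgebraicClosure N)).comp ψ) := by
    rw [Fintype.bijective_iff_injective_and_card]
    refine ⟨?_, by rw [hc1, hc2]⟩
    intro ψ ψ' h
    ext x
    have := DFunLike.congr_fun h x
    exact (algebraMap N (AlgebraicClosure N)).injective this
  apply (algebraMap N (AlgebraicClosure N)).injective
  rw [← IsScalarTower.algebraMap_apply, trace_eq_sum_embeddings (AlgebraicClosure N), map_sum]
  exact hb.sum_comp (fun ψ : F →ₐ[R] AlgebraicClosure N => ψ x)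

omit [CharZero R] [Algebra F N] [IsScalarTower R F N] [FiniteDimensional R F] in
/-- the automorphisms of a normal extension act transitively on the embeddings -/
theorem exists_aut (ψ ψ' : F →ₐ[R] N) : ∃ σ : N ≃ₐ[R] N, ∀ x, σ (ψ x) = ψ' x := by
  let K : IntermediateField R N := ψ.fieldRange
  let χ : K →ₐ[R] N := ψ'.comp (AlgEquiv.ofInjectiveField ψ).symm.toAlgHom
  let τ : N →ₐ[R] N := χ.liftNormal N
  refine ⟨AlgEquiv.ofBijective τ (AlgHom.normal_bijective R N N τ), fun x => ?_⟩
  show τ (ψ x) = ψ' x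
  have h1 := AlgHom.liftNormal_commutes χ N ((AlgEquiv.ofInjectiveField ψ) x)
  have h2 : (algebraMap K N) ((AlgEquiv.ofInjectiveField ψ) x) = ψ x := rfl
  rw [h2] at h1
  rw [h1]
  show ψ' ((AlgEquiv.ofInjectiveField ψ).symm ((AlgEquiv.ofInjectiveField ψ) x)) = ψ' x
  rw [AlgEquiv.symm_apply_apply]

end general

namespace Quart

variable {R F N : Type*} [Field R] [CharZero R] [Field F] [Algebra R F] [Field N] [Algebra R N]
  [Algebra F N] [IsScalarTower R F N] [Normal R N] (Q : Quart R F) (φ : Fin 4 ≃ (F →ₐ[R] N))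

include Q in
variable (N) in
theorem card_emb : Nat.card (F →ₐ[R] N) = 4 := by
  have := Q.fd
  rw [AlgHom.natCard_of_splits R F N splits_of_normal, Q.deg]

include Q in
variable (N) in
theorem exists_enum (ψ : F →ₐ[R] N) : ∃ φ : Fin 4 ≃ (F →ₐ[R] N), φ 0 = ψ := by
  have := Q.fd
  have hc := Q.card_emb N
  have : Finite (F →ₐ[R] N) := Nat.finite_of_card_ne_zero (by rw [hc]; norm_num)
  let e : Fin 4 ≃ (F →ₐ[R] N) := (finCongr hc.symm).trans (Finite.equivFin _).symm
  refine ⟨(Equiv.swap 0 (e.symm ψ)).trans e, ?_⟩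
  rw [Equiv.trans_apply, Equiv.swap_apply_left, Equiv.apply_symm_apply]

section pts

omit [CharZero R] [Algebra F N] [IsScalarTower R F N] [Normal R N]

/-- the point `P i` -/
def zz (i : Fin 4) : N := φ i Q.z

/-- the point `P i` -/
def ww (i : Fin 4) : N := φ i Q.w

theorem pts (i : Fin 4) : Pt (algebraMap R N Q.a) (algebraMap R N Q.b) (algebraMap R N Q.f)
    (algebraMap R N Q.g) (Q.zz φ i) (Q.ww φ i) := by
  constructor
  · have h := congrArg (φ i) Q.pt.1
    rw [map_pow, map_add, map_mul, AlgHom.commutes, AlgHom.commutes] at h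
    exact h
  · have h := congrArg (φ i) Q.pt.2
    rw [map_pow, map_add, map_mul, AlgHom.commutes, AlgHom.commutes] at h
    exact h

theorem ext_hom {N : Type*} [Field N] [Algebra R N] {ψ ψ' : F →ₐ[R] N} (hz : ψ Q.z = ψ' Q.z) (hw : ψ Q.w = ψ' Q.w) :
    ψ = ψ' := by
  have hfd := Q.fd
  have hadj : Algebra.adjoin R ({Q.z, Q.w} : Set F) = ⊤ := by
    have h := IntermediateField.adjoin_toSubalgebra (F := R) (E := F) {Q.z, Q.w}
    rw [Q.gen, IntermediateField.top_toSubalgebra] at h
    exact h.symm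
  refine AlgHom.ext_of_adjoin_eq_top hadj ?_
  intro x hx
  rcases hx with rfl | hx
  · exact hz
  · rw [Set.mem_singleton_iff] at hx
    subst hx
    exact hw

theorem ne_pts {i j : Fin 4} (h : i ≠ j) : Q.zz φ i ≠ Q.zz φ j ∨ Q.ww φ i ≠ Q.ww φ j := by
  by_contra hcon
  push Not at hcon
  exact h (φ.injective (Q.ext_hom hcon.1 hcon.2))

end pts

theorem sum_zz : ∑ i, Q.zz φ i = 0 := by
  have := Q.fd
  have h := sum_emb (R := R) N Q.z
  rw [Q.trace_z, map_zero] at h
  rw [← h]
  exact Equiv.sum_comp φ (fun ψ : F →ₐ[R] N => ψ Q.z)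

theorem sum_ww : ∑ i, Q.ww φ i = 0 := by
  have := Q.fd
  have h := sum_emb (R := R) N Q.w
  rw [Q.trace_w, map_zero] at h
  rw [← h]
  exact Equiv.sum_comp φ (fun ψ : F →ₐ[R] N => ψ Q.w)

end Quart

/-- the action of the automorphisms on the four embeddings -/
def perm {R F N : Type*} [Field R] [Field F] [Algebra R F] [Field N] [Algebra R N]
    (φ : Fin 4 ≃ (F →ₐ[R] N)) (σ : N ≃ₐ[R] N) : Equiv.Perm (Fin 4) :=
  (φ.trans { toFun := fun ψ => σ.toAlgHom.comp ψ
             invFun := fun ψ => σ.symm.toAlgHom.comp ψ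
             left_inv := fun ψ => by ext x; simp
             right_inv := fun ψ => by ext x; simp }).trans φ.symm

theorem perm_spec {R F N : Type*} [Field R] [Field F] [Algebra R F] [Field N] [Algebra R N]
    (φ : Fin 4 ≃ (F →ₐ[R] N)) (σ : N ≃ₐ[R] N) (i : Fin 4) (x : F) :
    σ (φ i x) = φ (perm φ σ i) x := by
  simp [perm]

theorem perm_mul {R F N : Type*} [Field R] [Field F] [Algebra R F] [Field N] [Algebra R N]
    (φ : Fin 4 ≃ (F →ₐ[R] N)) (σ τ : N ≃ₐ[R] N) : perm φ (σ * τ) = perm φ σ * perm φ τ := by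
  ext i : 1
  apply φ.injective
  ext x
  rw [← perm_spec, Equiv.Perm.mul_apply, ← perm_spec, ← perm_spec]
  rfl

theorem perm_trans {R F N : Type*} [Field R] [Field F] [Algebra R F] [Field N] [Algebra R N]
    [Normal R N] (φ : Fin 4 ≃ (F →ₐ[R] N)) (i j : Fin 4) : ∃ σ : N ≃ₐ[R] N, perm φ σ i = j := by
  obtain ⟨σ, hσ⟩ := exists_aut (φ i) (φ j)
  refine ⟨σ, ?_⟩
  apply φ.injective
  ext x
  rw [← perm_spec, hσ]

end Pool.Agent.Helper50.KS
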