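import Mathlib

/-!
# KS: a transitive group of permutations of four letters maps every pair to its complement
-/

namespace Pool.Agent.Helper50.KS

/-- `x` maps `{0, 1}` to `{2, 3}` -/
def Mv (x : Equiv.Perm (Fin 4)) : Prop := (x 0 = 2 ∧ x 1 = 3) ∨ (x 0 = 3 ∧ x 1 = 2)

instance (x : Equiv.Perm (Fin 4)) : Decidable (Mv x) := by unfold Mv; infer_instance

theorem words : ∀ p : Equiv.Perm (Fin 4), p 0 = 1 → ∀ q : Equiv.Perm (Fin 4), q 0 = 2 →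
    ∀ r : Equiv.Perm (Fin 4), r 0 = 3 → Mv q ∨ Mv r ∨ Mv (q⁻¹ * r) ∨ Mv (p * p) ∨ Mv (q⁻¹ * p * r) ∨
      Mv (q * p * q⁻¹) ∨ Mv (q⁻¹ * p⁻¹ * r) := by
  decide +kernel

theorem exists_compl0 (G : Subgroup (Equiv.Perm (Fin 4))) (htr : ∀ i j, ∃ g ∈ G, g i = j) :
    ∃ g ∈ G, Mv g := by
  obtain ⟨p, hp, hp0⟩ := htr 0 1
  obtain ⟨q, hq, hq0⟩ := htr 0 2
  obtain ⟨r, hr, hr0⟩ := htr 0 3
  rcases words p hp0 q hq0 r hr0 with h | h | h | h | h | h | h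
  · exact ⟨_, hq, h⟩
  · exact ⟨_, hr, h⟩
  · exact ⟨_, G.mul_mem (G.inv_mem hq) hr, h⟩
  · exact ⟨_, G.mul_mem hp hp, h⟩
  · exact ⟨_, G.mul_mem (G.mul_mem (G.inv_mem hq) hp) hr, h⟩
  · exact ⟨_, G.mul_mem (G.mul_mem hq hp) (G.inv_mem hq), h⟩
  · exact ⟨_, G.mul_mem (G.mul_mem (G.inv_mem hq) (G.inv_mem hp)) hr, h⟩

/-- there is a permutation with given values -/
theorem exists_perm (i j k l : Fin 4) (hij : i ≠ j) (hik : i ≠ k) (hil : i ≠ l) (hjk : j ≠ k)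
    (hjl : j ≠ l) (hkl : k ≠ l) : ∃ c : Equiv.Perm (Fin 4), c 0 = i ∧ c 1 = j ∧ c 2 = k ∧ c 3 = l := by
  have hinj : Function.Injective ![i, j, k, l] := by
    intro x y h
    fin_cases x <;> fin_cases y <;> simp_all
  refine ⟨Equiv.ofBijective ![i, j, k, l] ((Fintype.bijective_iff_injective_and_card _).2 ⟨hinj, rfl⟩), ?_⟩
  refine ⟨rfl, rfl, rfl, rfl⟩

theorem exists_compl (G : Subgroup (Equiv.Perm (Fin 4))) (htr : ∀ i j, ∃ g ∈ G, g i = j)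
    {i j k l : Fin 4} (hij : i ≠ j) (hik : i ≠ k) (hil : i ≠ l) (hjk : j ≠ k)
    (hjl : j ≠ l) (hkl : k ≠ l) : ∃ g ∈ G, (g i = k ∧ g j = l) ∨ (g i = l ∧ g j = k) := by
  obtain ⟨c, c0, c1, c2, c3⟩ := exists_perm i j k l hij hik hil hjk hjl hkl
  obtain ⟨g, hg, h⟩ := exists_compl0 (G.comap (MulAut.conj c).toMonoidHom) (by
    intro x y
    obtain ⟨h, hh, hxy⟩ := htr (c x) (c y)
    refine ⟨c⁻¹ * h * c, ?_, ?_⟩
    · rw [Subgroup.mem_comap]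
      show c * (c⁻¹ * h * c) * c⁻¹ ∈ G
      have : c * (c⁻¹ * h * c) * c⁻¹ = h := by group
      rw [this]
      exact hh
    · rw [Equiv.Perm.mul_apply, Equiv.Perm.mul_apply, hxy]; exact c.symm_apply_apply y)
  refine ⟨c * g * c⁻¹, hg, ?_⟩
  have i0 : c⁻¹ i = 0 := by rw [← c0]; exact c.symm_apply_apply 0
  have j1 : c⁻¹ j = 1 := by rw [← c1]; exact c.symm_apply_apply 1
  rw [Equiv.Perm.mul_apply, Equiv.Perm.mul_apply, Equiv.Perm.mul_apply, Equiv.Perm.mul_apply, i0, j1]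
  rcases h with ⟨h1, h2⟩ | ⟨h1, h2⟩
  · left
    rw [h1, h2]
    exact ⟨c2, c3⟩
  · right
    rw [h1, h2]
    exact ⟨c3, c2⟩

end Pool.Agent.Helper50.KS
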