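import Mathlib
import Pool.Agent.Helper50.KS.Emb
import Pool.Agent.Helper50.KS.Perm

/-!
# KS: the slopes of the six lines through two of the four points
-/

namespace Pool.Agent.Helper50.KS

namespace Quart

variable {R F N : Type*} [Field R] [CharZero R] [Field F] [Algebra R F] [Field N] [Algebra R N]
  (Q : Quart R F) (φ : Fin 4 ≃ (F →ₐ[R] N))

/-- the slope of the line through `P i` and `P j` (and `0` if `w i = w j`) -/
noncomputable def sl (i j : Fin 4) : N := (Q.zz φ i - Q.zz φ j) / (Q.ww φ i - Q.ww φ j)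

omit [CharZero R] in
theorem sl_symm (i j : Fin 4) : Q.sl φ i j = Q.sl φ j i := by
  unfold sl
  rw [← neg_div_neg_eq, neg_sub, neg_sub]

omit [CharZero R] in
theorem ww_ne {i j : Fin 4} (h : Q.sl φ i j ≠ 0) : Q.ww φ i ≠ Q.ww φ j := by
  intro h'
  apply h
  unfold sl
  rw [h', sub_self, div_zero]

omit [CharZero R] in
theorem zz_ne {i j : Fin 4} (h : Q.sl φ i j ≠ 0) : Q.zz φ i ≠ Q.zz φ j := by
  intro h'
  apply h
  unfold sl
  rw [h', sub_self, zero_div]

omit [CharZero R] in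
theorem sl_eq {i j : Fin 4} (h : Q.ww φ i ≠ Q.ww φ j) :
    Q.zz φ i - Q.zz φ j = Q.sl φ i j * (Q.ww φ i - Q.ww φ j) := by
  unfold sl
  rw [div_mul_cancel₀ _ (sub_ne_zero.2 h)]

omit [CharZero R] in
theorem sl_a {i j : Fin 4} (h : Q.sl φ i j ≠ 0) :
    Q.sl φ i j * (Q.zz φ i + Q.zz φ j) = algebraMap R N Q.a :=
  slope_a (Q.pts φ i) (Q.pts φ j) (Q.ww_ne φ h) (Q.sl_eq φ (Q.ww_ne φ h))

omit [CharZero R] in
theorem sl_b {i j : Fin 4} (h : Q.sl φ i j ≠ 0) :
    Q.ww φ i + Q.ww φ j = algebraMap R N Q.b * Q.sl φ i j :=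
  slope_b (Q.pts φ i) (Q.pts φ j) (Q.ww_ne φ h) (Q.sl_eq φ (Q.ww_ne φ h))

omit [CharZero R] in
theorem sl_res {i j : Fin 4} (h : Q.sl φ i j ≠ 0) :
    algebraMap R N Q.b ^ 2 * Q.sl φ i j ^ 6 - 4 * algebraMap R N Q.g * Q.sl φ i j ^ 4 +
      4 * algebraMap R N Q.f * Q.sl φ i j ^ 2 - algebraMap R N Q.a ^ 2 = 0 :=
  resolvent (Q.pts φ i) (Q.pts φ j) (Q.ww_ne φ h) (Q.sl_eq φ (Q.ww_ne φ h))

omit [CharZero R] in
theorem aut_sl (σ : N ≃ₐ[R] N) (i j : Fin 4) :
    σ (Q.sl φ i j) = Q.sl φ (perm φ σ i) (perm φ σ j) := by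
  unfold sl zz ww
  rw [map_div₀, map_sub, map_sub, perm_spec, perm_spec, perm_spec, perm_spec]

/-- the slope is not in the base field -/
theorem sl_not_mem {i j : Fin 4} (h : Q.sl φ i j ≠ 0) (r : R) : algebraMap R N r ≠ Q.sl φ i j := by
  intro hr
  have hres := Q.sl_res φ h
  rw [← hr] at hres h
  have hr0 : r ≠ 0 := by
    rintro rfl
    exact h (map_zero _)
  have hres' : Q.b ^ 2 * r ^ 6 - 4 * Q.g * r ^ 4 + 4 * Q.f * r ^ 2 - Q.a ^ 2 = 0 := by
    apply (algebraMap R N).injective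
    rw [map_zero]
    simp only [map_sub, map_add, map_mul, map_pow, map_ofNat]
    exact hres
  -- the pencil of conics is degenerate over `R`
  set ι := algebraMap R F with hι
  have hF : ι Q.b ^ 2 * ι r ^ 6 - 4 * ι Q.g * ι r ^ 4 + 4 * ι Q.f * ι r ^ 2 - ι Q.a ^ 2 = 0 := by
    have := congrArg ι hres'
    simp only [map_sub, map_add, map_mul, map_pow, map_ofNat, map_zero] at this
    exact this
  have hir : ι r ≠ 0 := by
    rw [hι]
    intro h'
    exact hr0 ((algebraMap R F).injective (by rw [h', map_zero]))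
  have hprod : (2 * ι r * Q.z - 2 * ι r ^ 2 * Q.w + ι Q.b * ι r ^ 3 - ι Q.a) *
      (2 * ι r * Q.z + 2 * ι r ^ 2 * Q.w + ι Q.b * ι r ^ 3 + ι Q.a) = 0 := by
    linear_combination 4 * ι r ^ 2 * Q.pt.1 - 4 * ι r ^ 4 * Q.pt.2 + hF
  have h2 : (2 : R) * r ≠ 0 := mul_ne_zero two_ne_zero hr0
  rcases mul_eq_zero.1 hprod with h' | h'
  · have := (Q.indep (2 * r) (-(2 * r ^ 2)) (Q.b * r ^ 3 - Q.a) (by
      rw [← hι]
      simp only [map_mul, map_neg, map_sub, map_pow, map_ofNat]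
      linear_combination h')).1
    exact h2 this
  · have := (Q.indep (2 * r) (2 * r ^ 2) (Q.b * r ^ 3 + Q.a) (by
      rw [← hι]
      simp only [map_mul, map_add, map_pow, map_ofNat]
      linear_combination h')).1
    exact h2 this

section nrm

variable [Algebra F N] [IsScalarTower R F N] [Normal R N]

theorem sum4_zz {i j k l : Fin 4} (hij : i ≠ j) (hik : i ≠ k) (hil : i ≠ l) (hjk : j ≠ k)
    (hjl : j ≠ l) (hkl : k ≠ l) : Q.zz φ i + Q.zz φ j + Q.zz φ k + Q.zz φ l = 0 := by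
  obtain ⟨c, c0, c1, c2, c3⟩ := exists_perm i j k l hij hik hil hjk hjl hkl
  have h := Q.sum_zz φ
  rw [← Equiv.sum_comp c, Fin.sum_univ_four, c0, c1, c2, c3] at h
  exact h

theorem sum4_ww {i j k l : Fin 4} (hij : i ≠ j) (hik : i ≠ k) (hil : i ≠ l) (hjk : j ≠ k)
    (hjl : j ≠ l) (hkl : k ≠ l) : Q.ww φ i + Q.ww φ j + Q.ww φ k + Q.ww φ l = 0 := by
  obtain ⟨c, c0, c1, c2, c3⟩ := exists_perm i j k l hij hik hil hjk hjl hkl
  have h := Q.sum_ww φ
  rw [← Equiv.sum_comp c, Fin.sum_univ_four, c0, c1, c2, c3] at h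
  exact h

/-- the complementary pair has the opposite slope -/
theorem sl_compl {i j k l : Fin 4} (hij : i ≠ j) (hik : i ≠ k) (hil : i ≠ l) (hjk : j ≠ k)
    (hjl : j ≠ l) (hkl : k ≠ l) : Q.sl φ k l = -Q.sl φ i j := by
  have hN : CharZero N := charZero_of_injective_algebraMap (algebraMap R N).injective
  have hz := Q.sum4_zz φ hij hik hil hjk hjl hkl
  have hw := Q.sum4_ww φ hij hik hil hjk hjl hkl
  by_cases h : Q.ww φ i = Q.ww φ j
  · have h' : Q.ww φ k = Q.ww φ l := by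
      by_contra hne
      exact compl_ne (Q.pts φ k) (Q.pts φ l) (Q.pts φ i) (Q.pts φ j) (by linear_combination hw) hne
        (Q.ne_pts φ hij) h
    unfold sl
    rw [h, h', sub_self, sub_self, div_zero, div_zero, neg_zero]
  · have h' : Q.ww φ k ≠ Q.ww φ l :=
      compl_ne (Q.pts φ i) (Q.pts φ j) (Q.pts φ k) (Q.pts φ l) (by linear_combination hw) h
        (Q.ne_pts φ hkl)
    have h3 := compl_slope (Q.pts φ i) (Q.pts φ j) (Q.pts φ k) (Q.pts φ l) hz hw h h'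
      (Q.ne_pts φ hik) (Q.ne_pts φ hil) (Q.sl_eq φ h)
    rw [Q.sl_eq φ h'] at h3
    exact mul_right_cancel₀ (sub_ne_zero.2 h') h3

omit [Algebra F N] [IsScalarTower R F N] [Normal R N] in
theorem sl_ne {i j k : Fin 4} (hjk : j ≠ k) (h : Q.sl φ i j ≠ 0) :
    Q.sl φ i k ≠ Q.sl φ i j := by
  have hN : CharZero N := charZero_of_injective_algebraMap (algebraMap R N).injective
  intro h'
  have h2 : Q.sl φ i k ≠ 0 := by rw [h']; exact h
  refine slope_ne (Q.pts φ i) (Q.pts φ j) (Q.pts φ k) (Q.ww_ne φ h) (Q.ww_ne φ h2) (Q.ne_pts φ hjk)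
    (Q.sl_eq φ (Q.ww_ne φ h)) ?_
  rw [← h']
  exact Q.sl_eq φ (Q.ww_ne φ h2)

/-- different pairs have different slopes -/
theorem sl_inj {i j k l : Fin 4} (hij : i ≠ j) (hkl : k ≠ l) (h : Q.sl φ i j ≠ 0)
    (he : Q.sl φ k l = Q.sl φ i j) : (k = i ∧ l = j) ∨ (k = j ∧ l = i) := by
  have hN : CharZero N := charZero_of_injective_algebraMap (algebraMap R N).injective
  by_cases hik : k = i
  · subst hik
    by_cases hjl : l = j
    · exact Or.inl ⟨rfl, hjl⟩
    · exact absurd he (Q.sl_ne φ (Ne.symm hjl) h)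
  · by_cases hil : l = i
    · subst hil
      by_cases hjk : k = j
      · exact Or.inr ⟨hjk, rfl⟩
      · rw [Q.sl_symm] at he
        exact absurd he (Q.sl_ne φ (Ne.symm hjk) h)
    · exfalso
      rw [Q.sl_symm φ i j] at he h
      by_cases hjk : k = j
      · subst hjk
        exact Q.sl_ne φ (Ne.symm hil) h he
      · by_cases hjl : l = j
        · subst hjl
          rw [Q.sl_symm] at he
          exact Q.sl_ne φ (Ne.symm hik) h he
        · have h3 := Q.sl_compl φ hij (Ne.symm hik) (Ne.symm hil) (Ne.symm hjk) (Ne.symm hjl) hkl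
          rw [he, Q.sl_symm φ j i] at h3
          rw [Q.sl_symm] at h
          have h4 : (2 : N) * Q.sl φ i j = 0 := by linear_combination h3
          rcases mul_eq_zero.1 h4 with h5 | h5
          · exact absurd h5 two_ne_zero
          · exact h h5

omit [CharZero R] [Algebra F N] [IsScalarTower R F N] [Normal R N] in
theorem perm_range_mul (x y : Equiv.Perm (Fin 4)) (hx : ∃ σ : N ≃ₐ[R] N, perm φ σ = x)
    (hy : ∃ σ : N ≃ₐ[R] N, perm φ σ = y) : ∃ σ : N ≃ₐ[R] N, perm φ σ = x * y := by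
  obtain ⟨σ, rfl⟩ := hx
  obtain ⟨τ, rfl⟩ := hy
  exact ⟨σ * τ, perm_mul φ σ τ⟩

omit [CharZero R] [Algebra F N] [IsScalarTower R F N] [Normal R N] in
theorem perm_one : perm φ (1 : N ≃ₐ[R] N) = 1 := by
  ext i : 1
  apply φ.injective
  ext x
  rw [← perm_spec]
  rfl

/-- the Galois group as a group of permutations -/
def permGroup : Subgroup (Equiv.Perm (Fin 4)) where
  carrier := {x | ∃ σ : N ≃ₐ[R] N, perm φ σ = x}
  mul_mem' := fun hx hy => perm_range_mul φ _ _ hx hy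
  one_mem' := ⟨1, perm_one φ⟩
  inv_mem' := by
    rintro _ ⟨σ, rfl⟩
    refine ⟨σ⁻¹, ?_⟩
    have h : perm φ (σ⁻¹ * σ) = perm φ σ⁻¹ * perm φ σ := perm_mul φ _ _
    rw [inv_mul_cancel, perm_one] at h
    exact eq_inv_of_mul_eq_one_left h.symm

/-- every pair is conjugate to its complement -/
theorem exists_pair_compl {i j k l : Fin 4} (hij : i ≠ j) (hik : i ≠ k) (hil : i ≠ l) (hjk : j ≠ k)
    (hjl : j ≠ l) (hkl : k ≠ l) : ∃ σ : N ≃ₐ[R] N, (perm φ σ i = k ∧ perm φ σ j = l) ∨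
      (perm φ σ i = l ∧ perm φ σ j = k) := by
  obtain ⟨_, ⟨σ, rfl⟩, h⟩ := exists_compl (permGroup φ) (by
    intro x y
    obtain ⟨σ, hσ⟩ := perm_trans φ x y
    exact ⟨_, ⟨σ, rfl⟩, hσ⟩) hij hik hil hjk hjl hkl
  exact ⟨σ, h⟩

theorem exists_others {i j : Fin 4} (hij : i ≠ j) : ∃ k l : Fin 4, i ≠ k ∧ i ≠ l ∧ j ≠ k ∧ j ≠ l ∧ k ≠ l := by
  revert hij
  revert i j
  decide

/-- every slope is conjugate to its negative -/
theorem exists_neg {i j : Fin 4} (hij : i ≠ j) : ∃ σ : N ≃ₐ[R] N, σ (Q.sl φ i j) = -Q.sl φ i j := by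
  obtain ⟨k, l, hik, hil, hjk, hjl, hkl⟩ := exists_others hij
  obtain ⟨σ, h⟩ := exists_pair_compl φ hij hik hil hjk hjl hkl
  refine ⟨σ, ?_⟩
  rw [aut_sl, ← Q.sl_compl φ hij hik hil hjk hjl hkl]
  rcases h with ⟨h1, h2⟩ | ⟨h1, h2⟩
  · rw [h1, h2]
  · rw [h1, h2, Q.sl_symm]

/-- the stabiliser of a nonzero slope is the stabiliser of the pair -/
theorem stab {i j : Fin 4} (hij : i ≠ j) (h : Q.sl φ i j ≠ 0) (σ : N ≃ₐ[R] N) :
    σ (Q.sl φ i j) = Q.sl φ i j ↔
      (perm φ σ i = i ∧ perm φ σ j = j) ∨ (perm φ σ i = j ∧ perm φ σ j = i) := by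
  constructor
  · intro h'
    rw [aut_sl] at h'
    exact Q.sl_inj φ hij (fun h => hij ((perm φ σ).injective h)) h h'
  · rintro (⟨h1, h2⟩ | ⟨h1, h2⟩)
    · rw [aut_sl, h1, h2]
    · rw [aut_sl, h1, h2, Q.sl_symm]

/-- the field of the pair is generated by the slope -/
theorem mem_adjoin [FiniteDimensional R N] {i j : Fin 4} (hij : i ≠ j) (h : Q.sl φ i j ≠ 0) (x : N)
    (hx : ∀ σ : N ≃ₐ[R] N, (perm φ σ i = i ∧ perm φ σ j = j) ∨ (perm φ σ i = j ∧ perm φ σ j = i) →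
      σ x = x) : x ∈ IntermediateField.adjoin R {Q.sl φ i j} := by
  have hG : IsGalois R N := ⟨⟩
  rw [← IsGalois.fixedField_fixingSubgroup (IntermediateField.adjoin R {Q.sl φ i j})]
  rw [IntermediateField.mem_fixedField_iff]
  intro σ hσ
  apply hx
  rw [← Q.stab φ hij h]
  rw [IntermediateField.mem_fixingSubgroup_iff] at hσ
  exact hσ _ (IntermediateField.subset_adjoin R _ rfl)

end nrm

/-! ### degenerate pairs -/

omit [CharZero R] in
/-- if `w i = w j` then `b = 0` and `z i = - z j` -/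
theorem deg_w {i j : Fin 4} (hij : i ≠ j) (h : Q.ww φ i = Q.ww φ j) : Q.b = 0 ∧ Q.zz φ i ≠ Q.zz φ j ∧
    Q.zz φ i + Q.zz φ j = 0 ∧ Q.ww φ i ^ 2 = algebraMap R N Q.g := by
  have hz : Q.zz φ i ≠ Q.zz φ j := by
    rcases Q.ne_pts φ hij with h' | h'
    · exact h'
    · exact absurd h h'
  have hb := same_w (Q.pts φ i) (Q.pts φ j) h hz
  have hb' : Q.b = 0 := (algebraMap R N).injective (by rw [hb, map_zero])
  refine ⟨hb', hz, ?_, ?_⟩
  · have h1 := (Q.pts φ i).1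
    have h2 := (Q.pts φ j).1
    have h3 : (Q.zz φ i - Q.zz φ j) * (Q.zz φ i + Q.zz φ j) = 0 := by
      linear_combination h1 - h2 + algebraMap R N Q.a * h
    rcases mul_eq_zero.1 h3 with h' | h'
    · exact absurd (sub_eq_zero.1 h') hz
    · exact h'
  · have h1 := (Q.pts φ i).2
    rw [hb, zero_mul, zero_add] at h1
    exact h1

omit [CharZero R] in
/-- if `z i = z j` then `a = 0` and `w i = - w j` -/
theorem deg_z {i j : Fin 4} (hij : i ≠ j) (h : Q.zz φ i = Q.zz φ j) : Q.a = 0 ∧ Q.ww φ i ≠ Q.ww φ j ∧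
    Q.ww φ i + Q.ww φ j = 0 ∧ Q.zz φ i ^ 2 = algebraMap R N Q.f := by
  have hw : Q.ww φ i ≠ Q.ww φ j := by
    rcases Q.ne_pts φ hij with h' | h'
    · exact absurd h h'
    · exact h'
  have ha := same_z (Q.pts φ i) (Q.pts φ j) h hw
  have ha' : Q.a = 0 := (algebraMap R N).injective (by rw [ha, map_zero])
  refine ⟨ha', hw, ?_, ?_⟩
  · have h1 := (Q.pts φ i).2
    have h2 := (Q.pts φ j).2
    have h3 : (Q.ww φ i - Q.ww φ j) * (Q.ww φ i + Q.ww φ j) = 0 := by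
      linear_combination h1 - h2 + algebraMap R N Q.b * h
    rcases mul_eq_zero.1 h3 with h' | h'
    · exact absurd (sub_eq_zero.1 h') hw
    · exact h'
  · have h1 := (Q.pts φ i).1
    rw [ha, zero_mul, zero_add] at h1
    exact h1

omit [CharZero R] in
theorem deg_cases {i j : Fin 4} (h : Q.sl φ i j = 0) : Q.zz φ i = Q.zz φ j ∨ Q.ww φ i = Q.ww φ j := by
  unfold sl at h
  rw [div_eq_zero_iff, sub_eq_zero, sub_eq_zero] at h
  exact h

end Quart

end Pool.Agent.Helper50.KS
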