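import Mathlib

/-!
# KS: the vanishing ideal of a generic point of an irreducible plane curve; conjugate elements
-/

namespace Pool.Agent.Helper50.KS

open Polynomial

section ker

variable {K N : Type*} [Field K] [Field N]

/-- the value of the polynomial `p (X, Y)` at `(x, y)` -/
noncomputable abbrev ev2 (e : K →+* N) (x y : N) (p : K[X][X]) : N := p.eval₂ (eval₂RingHom e x) y

/-- If `x` is transcendental over `K` and the irreducible polynomial `π` vanishes at `(x, y)` then `π`
divides all polynomials which vanish at `(x, y)`. -/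
theorem ker (e : K →+* N) (x y : N) (hx : ∀ p : K[X], p.eval₂ e x = 0 → p = 0) (π : K[X][X])
    (hπ : Irreducible π) (h0 : ev2 e x y π = 0) (p : K[X][X]) (hp : ev2 e x y p = 0) : π ∣ p := by
  have hinj : Function.Injective (eval₂RingHom e x) := by
    rw [injective_iff_map_eq_zero]
    intro a ha
    exact hx a ha
  have hdeg : π.natDegree ≠ 0 := by
    intro h
    rw [natDegree_eq_zero] at h
    obtain ⟨a, ha⟩ := h
    rw [ev2, ← ha, eval₂_C] at h0
    have ha0 := hx a h0
    rw [ha0, C_0] at ha
    exact hπ.ne_zero ha.symm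
  have hprim : π.IsPrimitive := hπ.isPrimitive hdeg
  let Kx := FractionRing K[X]
  let φ : Kx →+* N := IsFractionRing.lift hinj
  have hφ : φ.comp (algebraMap K[X] Kx) = eval₂RingHom e x := by
    ext a
    · simp [φ]
    · simp [φ]
  letI : Algebra Kx N := φ.toAlgebra
  have hirr : Irreducible (π.map (algebraMap K[X] Kx)) :=
    (hprim.irreducible_iff_irreducible_map_fraction_map).1 hπ
  have hev : ∀ q : K[X][X], aeval y (q.map (algebraMap K[X] Kx)) = ev2 e x y q := by
    intro q
    rw [aeval_def, eval₂_map]
    show q.eval₂ (φ.comp (algebraMap K[X] Kx)) y = _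
    rw [hφ]
  have h1 : aeval y (π.map (algebraMap K[X] Kx)) = 0 := by rw [hev, h0]
  have h2 : aeval y (p.map (algebraMap K[X] Kx)) = 0 := by rw [hev, hp]
  have h3 := minpoly.eq_of_irreducible hirr h1
  have h4 : minpoly Kx y ∣ p.map (algebraMap K[X] Kx) := minpoly.dvd _ _ h2
  rw [← h3] at h4
  have h5 : π.map (algebraMap K[X] Kx) ∣ p.map (algebraMap K[X] Kx) := dvd_of_mul_right_dvd h4
  exact hprim.dvd_of_fraction_map_dvd_fraction_map h5

/-- A nonzero polynomial which vanishes at `(x, y)` has an irreducible factor which vanishes at `(x, y)`. -/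
theorem exists_factor (e : K →+* N) (x y : N) (p : K[X][X]) (hp0 : p ≠ 0) (hp : ev2 e x y p = 0) :
    ∃ π, Irreducible π ∧ π ∣ p ∧ ev2 e x y π = 0 := by
  classical
  let ψ : K[X][X] →+* N := eval₂RingHom (eval₂RingHom e x) y
  have h1 := UniqueFactorizationMonoid.factors_prod hp0
  obtain ⟨u, hu⟩ := h1
  have h2 : ψ ((UniqueFactorizationMonoid.factors p).prod) = 0 := by
    have h3 : ψ p = 0 := hp
    rw [← hu, map_mul] at h3
    rcases mul_eq_zero.1 h3 with h | h
    · exact h
    · exact absurd h ((u.isUnit.map ψ).ne_zero)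
  rw [map_multiset_prod, Multiset.prod_eq_zero_iff, Multiset.mem_map] at h2
  obtain ⟨π, hπ, h⟩ := h2
  exact ⟨π, UniqueFactorizationMonoid.irreducible_of_factor π hπ,
    UniqueFactorizationMonoid.dvd_of_mem_factors hπ, h⟩

end ker

section conj

variable {k R N : Type*} [Field k] [Field R] [Field N] [Algebra k R] [Algebra R N] [Algebra k N]
  [IsScalarTower k R N]

/-- finitely many elements of `k (v_0, v_1)` have a common denominator -/
theorem common_den {ι : Type*} (v : Fin 2 → R) (hgen : IntermediateField.adjoin k (Set.range v) = ⊤)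
    (s : Finset ι) (r : ι → R) : ∃ D : MvPolynomial (Fin 2) k, MvPolynomial.aeval v D ≠ 0 ∧
      ∃ P : ι → MvPolynomial (Fin 2) k, ∀ i ∈ s,
        MvPolynomial.aeval v (P i) = MvPolynomial.aeval v D * r i := by
  classical
  induction s using Finset.induction_on with
  | empty => exact ⟨1, by simp, fun _ => 0, by simp⟩
  | insert a s ha ih =>
    obtain ⟨D, hD, P, hP⟩ := ih
    have hmem : r a ∈ IntermediateField.adjoin k (Set.range v) := by
      rw [hgen]
      exact IntermediateField.mem_top
    rw [IntermediateField.mem_adjoin_range_iff] at hmem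
    obtain ⟨n, d, hnd⟩ := hmem
    by_cases hd : MvPolynomial.aeval v d = 0
    · -- then `r a = 0`
      rw [hd, div_zero] at hnd
      refine ⟨D, hD, fun i => if i = a then 0 else P i, ?_⟩
      intro i hi
      beta_reduce
      rcases Finset.mem_insert.1 hi with rfl | hi'
      · rw [if_pos rfl, map_zero, hnd, mul_zero]
      · have : i ≠ a := fun h => ha (h ▸ hi')
        rw [if_neg this]
        exact hP i hi'
    · refine ⟨D * d, by rw [map_mul]; exact mul_ne_zero hD hd, fun i => if i = a then D * n else P i * d, ?_⟩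
      intro i hi
      beta_reduce
      rcases Finset.mem_insert.1 hi with rfl | hi'
      · rw [if_pos rfl, map_mul, map_mul, hnd]
        field_simp
      · have : i ≠ a := fun h => ha (h ▸ hi')
        rw [if_neg this, map_mul, map_mul, hP i hi']
        ring

/-- If every polynomial relation of `(v_0, v_1, τ)` is one of `(v_0, v_1, τ')` then `τ'` is a zero of the
minimal polynomial of `τ` over `k (v_0, v_1)`. -/
theorem minpoly_zero (v : Fin 2 → R) (hgen : IntermediateField.adjoin k (Set.range v) = ⊤) (τ τ' : N)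
    (h : ∀ p : MvPolynomial (Fin 3) k,
      MvPolynomial.aeval ![algebraMap R N (v 0), algebraMap R N (v 1), τ] p = 0 →
      MvPolynomial.aeval ![algebraMap R N (v 0), algebraMap R N (v 1), τ'] p = 0) (q : R[X])
    (hq : aeval τ q = 0) : aeval τ' q = 0 := by
  classical
  obtain ⟨D, hD, P, hP⟩ := common_den v hgen (Finset.range (q.natDegree + 1)) (fun i => q.coeff i)
  let g : Fin 2 → Fin 3 := ![0, 1]
  let p : MvPolynomial (Fin 3) k :=
    ∑ i ∈ Finset.range (q.natDegree + 1), MvPolynomial.rename g (P i) * MvPolynomial.X 2 ^ i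
  have hev : ∀ ρ : N, MvPolynomial.aeval ![algebraMap R N (v 0), algebraMap R N (v 1), ρ] p =
      algebraMap R N (MvPolynomial.aeval v D) * aeval ρ q := by
    intro ρ
    rw [aeval_eq_sum_range, Finset.mul_sum, map_sum]
    refine Finset.sum_congr rfl fun i hi => ?_
    rw [map_mul, map_pow, MvPolynomial.aeval_rename, MvPolynomial.aeval_X]
    have h1 : (![algebraMap R N (v 0), algebraMap R N (v 1), ρ] ∘ g) = fun j => algebraMap R N (v j) := by
      funext j
      fin_cases j <;> rfl
    have h2 : MvPolynomial.aeval (fun j => algebraMap R N (v j)) (P i) = algebraMap R N (MvPolynomial.aeval v (P i)) := by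
      rw [← MvPolynomial.aeval_algebraMap_apply]
      rfl
    rw [h1, h2, hP i hi, map_mul, Algebra.smul_def]
    show _ * ρ ^ i = _
    ring
  have h1 := h p (by rw [hev, hq, mul_zero])
  rw [hev] at h1
  rcases mul_eq_zero.1 h1 with h2 | h2
  · exfalso
    apply hD
    exact (algebraMap R N).injective (by rw [h2, map_zero])
  · exact h2

end conj

section link

variable {k K N : Type*} [Field k] [Field K] [Field N] [Algebra k K] [Algebra k N]

/-- Let `θ` be an element of `K`. If an irreducible polynomial over `K` vanishes at `(x, y)` for two embeddings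
`e`, `e'` of `K`, then every polynomial relation of `(x, y, e θ)` is one of `(x, y, e' θ)`. -/
theorem link (e e' : K →ₐ[k] N) (θ : K) (x y : N) (hx : ∀ p : K[X], p.eval₂ (e : K →+* N) x = 0 → p = 0)
    (π : K[X][X]) (hπ : Irreducible π) (h0 : ev2 (e : K →+* N) x y π = 0)
    (h0' : ev2 (e' : K →+* N) x y π = 0) (p : MvPolynomial (Fin 3) k)
    (hp : MvPolynomial.aeval ![x, y, e θ] p = 0) : MvPolynomial.aeval ![x, y, e' θ] p = 0 := by
  let J : MvPolynomial (Fin 3) k →ₐ[k] K[X][X] := MvPolynomial.aeval ![C X, X, C (C θ)]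
  have hJ : ∀ (f : K →ₐ[k] N) (q : MvPolynomial (Fin 3) k), ev2 (f : K →+* N) x y (J q) =
      MvPolynomial.aeval ![x, y, f θ] q := by
    intro f q
    have h1 : ∀ q, (eval₂RingHom (eval₂RingHom (f : K →+* N) x) y) (J q) = MvPolynomial.aeval ![x, y, f θ] q := by
      intro q
      induction q using MvPolynomial.induction_on with
      | C a =>
        rw [← MvPolynomial.algebraMap_eq, AlgHom.commutes, AlgHom.commutes]
        have : (algebraMap k K[X][X]) a = C (C (algebraMap k K a)) := rfl
        rw [this]
        simp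
      | add p q hp hq => rw [map_add, map_add, map_add, hp, hq]
      | mul_X p i hp =>
        rw [map_mul, map_mul, map_mul, hp, MvPolynomial.aeval_X, MvPolynomial.aeval_X]
        congr 1
        fin_cases i <;> simp
    exact h1 q
  have h1 : ev2 (e : K →+* N) x y (J p) = 0 := by rw [hJ, hp]
  obtain ⟨h, hh⟩ := ker (e : K →+* N) x y hx π hπ h0 (J p) h1
  rw [← hJ e', hh, ev2, eval₂_mul]
  rw [ev2] at h0'
  rw [h0', zero_mul]

end link

end Pool.Agent.Helper50.KS
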