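import Mathlib
import Pool.Agent.Helper50.KS.Ker

/-!
# KS: algebraic independence of pairs
-/

namespace Pool.Agent.Helper50.KS

open Polynomial

section two

variable {k N : Type*} [Field k] [Field N] [Algebra k N]

theorem pair_indep {x y : N} : AlgebraicIndependent k ![x, y] ↔
    (AlgebraicIndependent.matroid k N).Indep {x, y} ∧ x ≠ y := by
  constructor
  · intro h
    have hne : x ≠ y := by
      intro hxy
      have := h.injective (a₁ := (0 : Fin 2)) (a₂ := (1 : Fin 2)) hxy
      exact absurd this (by decide)
    refine ⟨?_, hne⟩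
    rw [AlgebraicIndependent.matroid_indep_iff]
    have h1 := h.to_subtype_range
    have h2 : Set.range ![x, y] = {x, y} := by
      ext z
      simp [Fin.exists_fin_two, eq_comm, or_comm]
    rw [h2] at h1
    exact h1
  · rintro ⟨h, hne⟩
    rw [AlgebraicIndependent.matroid_indep_iff] at h
    have hinj : Function.Injective ![x, y] := by
      intro i j hij
      fin_cases i <;> fin_cases j
      · rfl
      · exact absurd hij hne
      · exact absurd hij.symm hne
      · rfl
    have h2 : Set.range ![x, y] = {x, y} := by
      ext z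
      simp [Fin.exists_fin_two, eq_comm, or_comm]
    rw [← algebraicIndependent_subtype_range hinj, h2]
    exact h

theorem single_indep {x : N} : Transcendental k x ↔ (AlgebraicIndependent.matroid k N).Indep {x} := by
  rw [AlgebraicIndependent.matroid_indep_iff]
  constructor
  · intro h
    rw [AlgebraicIndepOn, algebraicIndependent_singleton_iff (⟨x, rfl⟩ : ({x} : Set N))]
    exact h
  · intro h
    rw [AlgebraicIndepOn, algebraicIndependent_singleton_iff (⟨x, rfl⟩ : ({x} : Set N))] at h
    exact h

theorem mem_closure_of_dep {τ x : N} (hτ : Transcendental k τ) (h : ¬ AlgebraicIndependent k ![τ, x]) :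
    x ∈ (AlgebraicIndependent.matroid k N).closure {τ} := by
  set M := AlgebraicIndependent.matroid k N
  by_cases hx : x = τ
  · rw [hx]
    exact M.mem_closure_self τ
  · by_contra hcon
    apply h
    rw [pair_indep]
    refine ⟨?_, fun h' => hx h'.symm⟩
    have h1 := single_indep.1 hτ
    rw [Set.pair_comm]
    exact (h1.insert_indep_iff_of_notMem (by simpa using hx)).2 ⟨trivial, hcon⟩

/-- two independent elements are not both algebraic over `k (τ)` -/
theorem two {τ x y : N} (hτ : Transcendental k τ) (hxy : AlgebraicIndependent k ![x, y])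
    (h1 : ¬ AlgebraicIndependent k ![τ, x]) (h2 : ¬ AlgebraicIndependent k ![τ, y]) : False := by
  set M := AlgebraicIndependent.matroid k N
  obtain ⟨h3, h4⟩ := pair_indep.1 hxy
  have h5 : ({x, y} : Set N) ⊆ M.closure {τ} := by
    intro z hz
    rcases hz with rfl | hz
    · exact mem_closure_of_dep hτ h1
    · rw [Set.mem_singleton_iff] at hz
      subst hz
      exact mem_closure_of_dep hτ h2
  have h6 := h3.encard_le_eRk_of_subset h5
  rw [M.eRk_closure_eq, Set.encard_pair h4] at h6
  have h7 := h6.trans (M.eRk_le_encard {τ})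
  rw [Set.encard_singleton] at h7
  exact absurd h7 (by norm_num)

end two

section frac

variable {k N : Type*} [Field k] [Field N] [Algebra k N]

/-- the embedding of `k (θ)` with `θ ↦ τ` -/
noncomputable def eK (τ : N) (hτ : Transcendental k τ) : FractionRing k[X] →ₐ[k] N :=
  IsFractionRing.liftAlgHom (g := (aeval τ : k[X] →ₐ[k] N)) (transcendental_iff_injective.1 hτ)

theorem eK_apply (τ : N) (hτ : Transcendental k τ) (p : k[X]) :
    eK τ hτ (algebraMap k[X] (FractionRing k[X]) p) = aeval τ p := by
  unfold eK
  rw [IsFractionRing.liftAlgHom_apply, IsFractionRing.lift_algebraMap]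
  rfl

theorem aeval_equiv (τ x : N) (q : k[X][X]) :
    MvPolynomial.aeval ![τ, x] (Bivariate.equivMvPolynomial k q) = q.eval₂ (aeval τ : k[X] →ₐ[k] N).toRingHom x := by
  have h : ∀ q : k[X][X], (MvPolynomial.aeval ![τ, x]) (Bivariate.equivMvPolynomial k q) =
      (eval₂RingHom (aeval τ : k[X] →ₐ[k] N).toRingHom x) q := by
    intro q
    induction q using Polynomial.induction_on' with
    | add p q hp hq => rw [map_add, map_add, map_add, hp, hq]
    | monomial n p =>
      rw [← C_mul_X_pow_eq_monomial, map_mul, map_mul, map_pow, map_mul, map_pow, map_pow]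
      rw [Bivariate.equivMvPolynomial_X, MvPolynomial.aeval_X]
      have h2 : ∀ p : k[X], (MvPolynomial.aeval ![τ, x]) (Bivariate.equivMvPolynomial k (C p)) =
          (aeval τ) p := by
        intro p
        induction p using Polynomial.induction_on' with
        | add p q hp hq => rw [C_add, map_add, map_add, map_add, hp, hq]
        | monomial m a =>
          rw [← C_mul_X_pow_eq_monomial, C_mul, C_pow, map_mul, map_pow, Bivariate.equivMvPolynomial_C_C,
            Bivariate.equivMvPolynomial_C_X, map_mul, map_pow, MvPolynomial.aeval_X, map_mul, map_pow, aeval_X,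
            aeval_C, ← MvPolynomial.algebraMap_eq, AlgHom.commutes]
          rfl
      rw [h2]
      simp
  exact h q

theorem transc_of_indep {τ x : N} (hτ : Transcendental k τ) (h : AlgebraicIndependent k ![τ, x])
    (p : (FractionRing k[X])[X]) (hp : p.eval₂ (eK τ hτ : FractionRing k[X] →+* N) x = 0) : p = 0 := by
  obtain ⟨c, hc0, hc⟩ := IsLocalization.integerNormalization_spec (nonZeroDivisors k[X]) p
  set q := IsLocalization.integerNormalization (nonZeroDivisors k[X]) p with hq
  have hc0' : c ≠ 0 := nonZeroDivisors.ne_zero hc0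
  have h1 : q.eval₂ (aeval τ : k[X] →ₐ[k] N).toRingHom x = 0 := by
    have h2 : (q.map (algebraMap k[X] (FractionRing k[X]))).eval₂ (eK τ hτ : FractionRing k[X] →+* N) x = 0 := by
      rw [hc, Algebra.smul_def, eval₂_mul, hp, mul_zero]
    rw [eval₂_map] at h2
    have h3 : ((eK τ hτ : FractionRing k[X] →+* N).comp (algebraMap k[X] (FractionRing k[X]))) =
        (aeval τ : k[X] →ₐ[k] N).toRingHom := by
      ext a
      · show eK τ hτ (algebraMap k[X] (FractionRing k[X]) (C a)) = aeval τ (C a)
        rw [eK_apply]
      · show eK τ hτ (algebraMap k[X] (FractionRing k[X]) X) = aeval τ X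
        rw [eK_apply]
    rwa [h3] at h2
  rw [← aeval_equiv] at h1
  have h4 : Bivariate.equivMvPolynomial k q = 0 := by
    rw [algebraicIndependent_iff] at h
    exact h _ h1
  have h5 : q = 0 := by simpa using h4
  rw [h5, Polynomial.map_zero] at hc
  have h6 : (algebraMap k[X] (FractionRing k[X]) c) ≠ 0 := by
    intro h
    exact hc0' ((IsFractionRing.injective k[X] (FractionRing k[X])) (by rw [h, map_zero]))
  rw [Algebra.smul_def] at hc
  rcases mul_eq_zero.1 hc.symm with h7 | h7
  · exfalso
    apply h6
    have : (algebraMap k[X] (FractionRing k[X])[X]) c = C (algebraMap k[X] (FractionRing k[X]) c) := rfl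
    rw [this] at h7
    exact C_eq_zero.1 h7
  · exact h7

theorem indep_of_transc {τ x : N} (hτ : Transcendental k τ)
    (h : ∀ p : (FractionRing k[X])[X], p.eval₂ (eK τ hτ : FractionRing k[X] →+* N) x = 0 → p = 0) :
    AlgebraicIndependent k ![τ, x] := by
  rw [algebraicIndependent_iff]
  intro P hP
  set q := (Bivariate.equivMvPolynomial k).symm P with hq
  have hP' : P = Bivariate.equivMvPolynomial k q := by rw [hq, AlgEquiv.apply_symm_apply]
  rw [hP', aeval_equiv] at hP
  have h3 : ((eK τ hτ : FractionRing k[X] →+* N).comp (algebraMap k[X] (FractionRing k[X]))) =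
      (aeval τ : k[X] →ₐ[k] N).toRingHom := by
    ext a
    · show eK τ hτ (algebraMap k[X] (FractionRing k[X]) (C a)) = aeval τ (C a)
      rw [eK_apply]
    · show eK τ hτ (algebraMap k[X] (FractionRing k[X]) X) = aeval τ X
      rw [eK_apply]
  rw [← h3, ← eval₂_map] at hP
  have h4 := h _ hP
  have h5 : q = 0 := by
    apply Polynomial.map_injective _ (IsFractionRing.injective k[X] (FractionRing k[X]))
    rw [h4, Polynomial.map_zero]
  rw [hP', h5, map_zero]

end frac

end Pool.Agent.Helper50.KS
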