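import Mathlib
import Pool.Agent.Helper9.NS
import Pool.Agent.Helper15.KP.Defs

/-!
# KS: invariants of plane cubics; a line and a conic
-/

set_option linter.unusedSectionVars false

namespace Pool.Agent.Helper50.KS

open Pool.Agent.Helper15.KP

section

variable {K : Type*} [CommRing K]

/-- the coefficients of the product of the line `l` and the conic `q` -/
def lq (l : Fin 3 → K) (q : Fin 6 → K) : Fin 10 → K :=
  ![l 0 * q 0, l 0 * q 1 + l 1 * q 0, l 0 * q 2 + l 2 * q 0, l 0 * q 3 + l 1 * q 1,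
    l 0 * q 4 + l 1 * q 2 + l 2 * q 1, l 0 * q 5 + l 2 * q 2, l 1 * q 3, l 1 * q 4 + l 2 * q 3,
    l 1 * q 5 + l 2 * q 4, l 2 * q 5]

/-- the condition that the line touches the conic -/
def tang (l : Fin 3 → K) (q : Fin 6 → K) : K :=
  4 * l 0 ^ 2 * q 3 * q 5 - l 0 ^ 2 * q 4 ^ 2 - 4 * l 0 * l 1 * q 1 * q 5 + 2 * l 0 * l 1 * q 2 * q 4 +
    2 * l 0 * l 2 * q 1 * q 4 - 4 * l 0 * l 2 * q 2 * q 3 + 4 * l 1 ^ 2 * q 0 * q 5 - l 1 ^ 2 * q 2 ^ 2 -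
    4 * l 1 * l 2 * q 0 * q 4 + 2 * l 1 * l 2 * q 1 * q 2 + 4 * l 2 ^ 2 * q 0 * q 3 - l 2 ^ 2 * q 1 ^ 2

theorem PS_lq (l : Fin 3 → K) (q : Fin 6 → K) : PS (lq l q) = -tang l q ^ 2 := by
  have h0 : lq l q 0 = l 0 * q 0 := rfl
  have h1 : lq l q 1 = l 0 * q 1 + l 1 * q 0 := rfl
  have h2 : lq l q 2 = l 0 * q 2 + l 2 * q 0 := rfl
  have h3 : lq l q 3 = l 0 * q 3 + l 1 * q 1 := rfl
  have h4 : lq l q 4 = l 0 * q 4 + l 1 * q 2 + l 2 * q 1 := rfl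
  have h5 : lq l q 5 = l 0 * q 5 + l 2 * q 2 := rfl
  have h6 : lq l q 6 = l 1 * q 3 := rfl
  have h7 : lq l q 7 = l 1 * q 4 + l 2 * q 3 := rfl
  have h8 : lq l q 8 = l 1 * q 5 + l 2 * q 4 := rfl
  have h9 : lq l q 9 = l 2 * q 5 := rfl
  unfold PS tang
  rw [h0, h1, h2, h3, h4, h5, h6, h7, h8, h9]
  ring

theorem PT_lq (l : Fin 3 → K) (q : Fin 6 → K) : PT (lq l q) = -tang l q ^ 3 := by
  have h0 : lq l q 0 = l 0 * q 0 := rfl
  have h1 : lq l q 1 = l 0 * q 1 + l 1 * q 0 := rfl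
  have h2 : lq l q 2 = l 0 * q 2 + l 2 * q 0 := rfl
  have h3 : lq l q 3 = l 0 * q 3 + l 1 * q 1 := rfl
  have h4 : lq l q 4 = l 0 * q 4 + l 1 * q 2 + l 2 * q 1 := rfl
  have h5 : lq l q 5 = l 0 * q 5 + l 2 * q 2 := rfl
  have h6 : lq l q 6 = l 1 * q 3 := rfl
  have h7 : lq l q 7 = l 1 * q 4 + l 2 * q 3 := rfl
  have h8 : lq l q 8 = l 1 * q 5 + l 2 * q 4 := rfl
  have h9 : lq l q 9 = l 2 * q 5 := rfl
  unfold PT tang
  rw [h0, h1, h2, h3, h4, h5, h6, h7, h8, h9]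
  ring

theorem Dsc_lq (l : Fin 3 → K) (q : Fin 6 → K) : Dsc (lq l q) = 0 := by
  unfold Dsc
  rw [PS_lq, PT_lq]
  ring

/-- a point where the two partial derivatives vanish -/
theorem Dsc_sing (c : Fin 10 → K) (h3 : c 3 = 0) (h6 : c 6 = 0) (h7 : c 7 = 0) : Dsc c = 0 := by
  have h1 : PS c = -((4 * c 1 * c 8 - c 4 ^ 2) ^ 2) := by
    unfold PS
    rw [h3, h6, h7]
    ring
  have h2 : PT c = -((4 * c 1 * c 8 - c 4 ^ 2) ^ 3) := by
    unfold PT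
    rw [h3, h6, h7]
    ring
  unfold Dsc
  rw [h1, h2]
  ring

/-- a cubic containing the line at infinity -/
theorem Dsc_line (c : Fin 10 → K) (h0 : c 0 = 0) (h1 : c 1 = 0) (h3 : c 3 = 0) (h6 : c 6 = 0) : Dsc c = 0 := by
  have hc : c = lq ![0, 0, 1] ![c 2, c 4, c 5, c 7, c 8, c 9] := by
    funext i
    fin_cases i <;> simp [lq, h0, h1, h3, h6]
  rw [hc]
  exact Dsc_lq _ _

end

end Pool.Agent.Helper50.KS
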