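import Mathlib
import Pool.Agent.Helper50.KS.Ind
import Pool.Agent.Helper50.KS.Irr

/-!
# KS: the slopes form one orbit
-/

set_option linter.unusedSectionVars false

namespace Pool.Agent.Helper50.KS

open Polynomial
open Pool.Agent.Helper15.KP (cub PS PT Dsc Dbin)

section map

variable {R S : Type*} [CommRing R] [CommRing S]

theorem PS_map (φ : R →+* S) (c : Fin 10 → R) : PS (fun i => φ (c i)) = φ (PS c) := by
  unfold PS
  simp only [map_add, map_sub, map_mul, map_pow, map_neg, map_ofNat]

theorem PT_map (φ : R →+* S) (c : Fin 10 → R) : PT (fun i => φ (c i)) = φ (PT c) := by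
  unfold PT
  simp only [map_add, map_sub, map_mul, map_pow, map_neg, map_ofNat]

theorem Dsc_map (φ : R →+* S) (c : Fin 10 → R) : Dsc (fun i => φ (c i)) = φ (Dsc c) := by
  unfold Dsc
  rw [PS_map, PT_map, map_add, map_pow, map_pow]

theorem Dbin_map (φ : R →+* S) (c : Fin 10 → R) : Dbin (fun i => φ (c i)) = φ (Dbin c) := by
  unfold Dbin
  simp only [map_add, map_sub, map_mul, map_pow, map_ofNat]

end map

section orb

variable {k N : Type*} [Field k] [Field N] [Algebra k N]

/-- the ring homomorphism `p (X) ↦ p (X²)` to `k (X)` -/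
noncomputable def sq (k : Type*) [Field k] : k[X] →+* FractionRing k[X] :=
  (algebraMap k[X] (FractionRing k[X])).comp (expand k 2 : k[X] →ₐ[k] k[X]).toRingHom

theorem sq_inj : Function.Injective (sq k) := by
  unfold sq
  intro a b h
  have h1 := IsFractionRing.injective k[X] (FractionRing k[X]) h
  exact expand_injective (by norm_num) h1

theorem eK_sq (τ : N) (hτ : Transcendental k τ) (p : k[X]) : eK τ hτ (sq k p) = aeval (τ ^ 2) p := by
  show eK τ hτ (algebraMap k[X] (FractionRing k[X]) (expand k 2 p)) = _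
  rw [eK_apply, expand_aeval]

/-- the cubic over `k (X)` -/
noncomputable def cK (c : Fin 10 → k[X]) : Fin 10 → FractionRing k[X] := fun i => sq k (c i)

theorem cK_ne {c : Fin 10 → k[X]} (h : c 0 ≠ 0) : cK c 0 ≠ 0 := by
  intro h'
  exact h (sq_inj (by rw [map_zero]; exact h'))

theorem Dsc_cK {c : Fin 10 → k[X]} (h : Dsc c ≠ 0) : Dsc (cK c) ≠ 0 := by
  unfold cK
  rw [Dsc_map (sq k)]
  intro h'
  exact h (sq_inj (by rw [map_zero]; exact h'))

theorem Dbin_cK {c : Fin 10 → k[X]} (h : Dbin c ≠ 0) : Dbin (cK c) ≠ 0 := by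
  unfold cK
  rw [Dbin_map (sq k)]
  intro h'
  exact h (sq_inj (by rw [map_zero]; exact h'))

theorem ev_pol {K : Type*} [Field K] (e : K →+* N) (c : Fin 10 → K) (s t : N) :
    ev2 e t s (pol c) = cub (fun i => e (c i)) s t := by
  unfold ev2 pol cub
  simp only [eval₂_add, eval₂_mul, eval₂_pow, eval₂_C, eval₂_X, coe_eval₂RingHom]
  ring

theorem ev_cK (τ : N) (hτ : Transcendental k τ) (c : Fin 10 → k[X]) (s t : N)
    (h : cub (fun i => aeval (τ ^ 2) (c i)) s t = 0) :
    ev2 (eK τ hτ : FractionRing k[X] →+* N) t s (pol (cK c)) = 0 := by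
  rw [ev_pol]
  have h1 : (fun i => (eK τ hτ : FractionRing k[X] →+* N) (cK c i)) = fun i => aeval (τ ^ 2) (c i) := by
    funext i
    exact eK_sq τ hτ (c i)
  rw [h1, h]

/-- two independent elements are not both in the closure of one element -/
theorem two_closure {τ x y : N} (hxy : AlgebraicIndependent k ![x, y])
    (h1 : x ∈ (AlgebraicIndependent.matroid k N).closure {τ})
    (h2 : y ∈ (AlgebraicIndependent.matroid k N).closure {τ}) : False := by
  set M := AlgebraicIndependent.matroid k N
  obtain ⟨h3, h4⟩ := pair_indep.1 hxy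
  have h5 : ({x, y} : Set N) ⊆ M.closure {τ} := by
    intro z hz
    rcases hz with rfl | hz
    · exact h1
    · rw [Set.mem_singleton_iff] at hz
      subst hz
      exact h2
  have h6 := h3.encard_le_eRk_of_subset h5
  rw [M.eRk_closure_eq, Set.encard_pair h4] at h6
  have h7 := h6.trans (M.eRk_le_encard {τ})
  rw [Set.encard_singleton] at h7
  exact absurd h7 (by norm_num)

/-- `s` is algebraic over `k (τ, t)` -/
theorem s_mem_closure {τ s t : N} (hτ : Transcendental k τ) (c : Fin 10 → k[X]) (h0 : c 0 ≠ 0)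
    (h : cub (fun i => aeval (τ ^ 2) (c i)) s t = 0) :
    s ∈ (AlgebraicIndependent.matroid k N).closure {τ, t} := by
  rw [AlgebraicIndependent.matroid_closure_eq]
  show IsAlgebraic (Algebra.adjoin k {τ, t}) s
  set A := Algebra.adjoin k ({τ, t} : Set N)
  let τ' : A := ⟨τ, Algebra.subset_adjoin (by simp)⟩
  let t' : A := ⟨t, Algebra.subset_adjoin (by simp)⟩
  let d : Fin 10 → A := fun i => aeval (τ' ^ 2) (c i)
  have hd : ∀ i, ((d i : A) : N) = aeval (τ ^ 2) (c i) := by
    intro i
    have h1 := aeval_algHom_apply A.val (τ' ^ 2) (c i)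
    rw [map_pow] at h1
    exact h1.symm
  refine ⟨C (d 0) * X ^ 3 + C (d 1 * t' + d 2) * X ^ 2 + C (d 3 * t' ^ 2 + d 4 * t' + d 5) * X +
    C (d 6 * t' ^ 3 + d 7 * t' ^ 2 + d 8 * t' + d 9), ?_, ?_⟩
  · intro h1
    have h2 := congrArg (fun p => coeff p 3) h1
    simp only [co3, coeff_zero] at h2
    have h3 : aeval (τ ^ 2) (c 0) = 0 := by rw [← hd, h2]; rfl
    have h4 : Transcendental k (τ ^ 2) := hτ.pow (by norm_num)
    exact h0 ((transcendental_iff.1 h4) _ h3)
  · simp only [map_add, map_mul, map_pow, aeval_C, aeval_X]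
    have hmap : ∀ a : A, algebraMap A N a = (a : N) := fun a => rfl
    simp only [hmap, Subalgebra.coe_add, Subalgebra.coe_mul, Subalgebra.coe_pow, hd]
    have hτt : ((t' : A) : N) = t := rfl
    rw [hτt]
    unfold cub at h
    linear_combination h

/-- `t` is transcendental over `k (τ)` -/
theorem indep_t {τ s t : N} (hτ : Transcendental k τ) (hst : AlgebraicIndependent k ![s, t])
    (c : Fin 10 → k[X]) (h0 : c 0 ≠ 0) (h : cub (fun i => aeval (τ ^ 2) (c i)) s t = 0) :
    AlgebraicIndependent k ![τ, t] := by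
  by_contra hcon
  have h1 := mem_closure_of_dep hτ hcon
  have h2 := s_mem_closure hτ c h0 h
  refine two_closure hst ?_ h1
  set M := AlgebraicIndependent.matroid k N
  have h3 : M.closure {τ, t} ⊆ M.closure {τ} := by
    apply M.closure_subset_closure_of_subset_closure
    intro z hz
    rcases hz with rfl | hz
    · exact M.mem_closure_self z
    · rw [Set.mem_singleton_iff] at hz
      subst hz
      exact h1
  exact h3 h2

/-- `s` is transcendental over `k (τ)` -/
theorem indep_s {τ s t : N} (hτ : Transcendental k τ) (hst : AlgebraicIndependent k ![s, t])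
    (c : Fin 10 → k[X]) (h0 : c 0 ≠ 0) (hb : Dbin c ≠ 0) (hd : Dsc c ≠ 0)
    (h : cub (fun i => aeval (τ ^ 2) (c i)) s t = 0) :
    AlgebraicIndependent k ![τ, s] := by
  apply indep_of_transc hτ
  intro R hR
  by_contra hR0
  have hx := transc_of_indep hτ (indep_t hτ hst c h0 h)
  have hirr := pol_irreducible (cK c) (cK_ne h0) (Dsc_cK hd)
  have h1 : ev2 (eK τ hτ : FractionRing k[X] →+* N) t s (R.map C) = 0 := by
    unfold ev2
    rw [eval₂_map]
    have h2 : ((eval₂RingHom (eK τ hτ : FractionRing k[X] →+* N) t).comp C) =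
        (eK τ hτ : FractionRing k[X] →+* N) := by
      ext a
      simp
    rw [h2, hR]
  obtain ⟨q, hq⟩ := ker (eK τ hτ : FractionRing k[X] →+* N) t s hx (pol (cK c)) hirr (ev_cK τ hτ c s t h) _ h1
  have h2 : C R = Bivariate.swap (pol (cK c)) * Bivariate.swap q := by
    rw [← map_mul, ← hq, Bivariate.swap_map_C]
  have hCR : (C R : (FractionRing k[X])[X][X]) ≠ 0 := by
    rw [Ne, C_eq_zero]
    exact hR0
  have hne : Bivariate.swap (pol (cK c)) ≠ 0 ∧ Bivariate.swap q ≠ 0 := by
    rw [h2] at hCR
    exact ⟨left_ne_zero_of_mul hCR, right_ne_zero_of_mul hCR⟩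
  have h3 : (Bivariate.swap (pol (cK c))).natDegree = 0 := by
    have h4 := congrArg natDegree h2
    rw [natDegree_C, natDegree_mul hne.1 hne.2] at h4
    omega
  obtain ⟨r, hr⟩ := natDegree_eq_zero.1 h3
  have h5 : pol (cK c) = r.map C := by
    rw [← Bivariate.swap_swap_apply (pol (cK c)), ← hr, Bivariate.swap_C]
  have c2 := congrArg (fun p => coeff p 2) h5
  have c1 := congrArg (fun p => coeff p 1) h5
  have c0 := congrArg (fun p => coeff p 0) h5
  simp only [pol_coeff2, pol_coeff1, pol_coeff0, coeff_map] at c2 c1 c0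
  have e1 : cK c 1 = 0 := by
    have := congrArg (fun p => coeff p 1) c2
    simpa [coeff_X, coeff_C] using this
  have e3 : cK c 3 = 0 := by
    have := congrArg (fun p => coeff p 2) c1
    simpa [coeff_X, coeff_C] using this
  have e6 : cK c 6 = 0 := by
    have := congrArg (fun p => coeff p 3) c0
    simpa [coeff_X, coeff_C] using this
  apply Dbin_cK hb
  unfold Dbin
  rw [e1, e3, e6]
  ring

end orb

section conj

variable {k R N : Type*} [Field k] [Field R] [Field N] [Algebra k R] [Algebra R N] [Algebra k N]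
  [IsScalarTower k R N]

/-- Two elements satisfying the equation of the cubic are conjugate. -/
theorem conj [Normal R N] {s t : R} (hst : AlgebraicIndependent k ![s, t])
    (hgen : IntermediateField.adjoin k (Set.range ![t, s]) = ⊤) {τ τ' : N} (hτ : Transcendental k τ)
    (hτ' : Transcendental k τ')
    (c : Fin 10 → k[X]) (h0 : c 0 ≠ 0) (hd : Dsc c ≠ 0)
    (h : cub (fun i => aeval (τ ^ 2) (c i)) (algebraMap R N s) (algebraMap R N t) = 0)
    (h' : cub (fun i => aeval (τ' ^ 2) (c i)) (algebraMap R N s) (algebraMap R N t) = 0) :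
    ∃ σ : N ≃ₐ[R] N, σ τ = τ' := by
  have hst' : AlgebraicIndependent k ![algebraMap R N s, algebraMap R N t] := by
    have h1 := hst.map' (f := IsScalarTower.toAlgHom k R N) (algebraMap R N).injective
    convert h1 using 1
    funext i
    fin_cases i <;> rfl
  have hx := transc_of_indep hτ (indep_t hτ hst' c h0 h)
  have hirr := pol_irreducible (cK c) (cK_ne h0) (Dsc_cK hd)
  have hN := Normal.isIntegral (F := R) (K := N) inferInstance τ
  have key : aeval τ' (minpoly R τ) = 0 := by
    refine minpoly_zero (k := k) ![t, s] hgen τ τ' ?_ _ (minpoly.aeval R τ)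
    intro p hp
    have e1 : eK τ hτ (algebraMap k[X] (FractionRing k[X]) X) = τ := by rw [eK_apply, aeval_X]
    have e2 : eK τ' hτ' (algebraMap k[X] (FractionRing k[X]) X) = τ' := by rw [eK_apply, aeval_X]
    have h1 := link (eK τ hτ) (eK τ' hτ') (algebraMap k[X] (FractionRing k[X]) X) (algebraMap R N t)
      (algebraMap R N s) hx (pol (cK c)) hirr (ev_cK τ hτ c _ _ h) (ev_cK τ' hτ' c _ _ h') p
    rw [e1, e2] at h1
    exact h1 hp
  exact minpoly.exists_algEquiv_of_root' hN.isAlgebraic key

end conj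

end Pool.Agent.Helper50.KS
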