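import Mathlib
import Pool.Agent.Helper50.KS.Qd1
import Pool.Agent.Helper15.KP.Fam

/-!
# KS: pairs of embeddings which agree on an element
-/

set_option linter.unusedSectionVars false

namespace Pool.Agent.Helper50.KS

open Polynomial
open VC VF Function Pool.Agent.Helper21.TO Pool.Agent.Helper15.GT
open Pool.Agent.Helper15.KP (cub PS PT Dsc Dbin HF Tv CD QD Reg)

universe u

variable {k R F N : Type u} [Field k] [IsAlgClosed k] [CharZero k] [Field R] [CharZero R] [Field F] [Field N]
  [Algebra k R] [Algebra k F] [Algebra k N] [Algebra R F] [Algebra R N] [Algebra F N] [IsScalarTower k R F]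
  [IsScalarTower k R N] [IsScalarTower R F N] [Normal R N] [FiniteDimensional R N]
  (φ : Fin 4 ≃ (F →ₐ[R] N))

/-- the trace of a harmonic function to the field `R (x)` -/
theorem pair_trace (x : F) {j : Fin 4} (hj : j ≠ 0) (hx : φ 0 x = φ j x)
    (hx' : ∀ i, φ i x = φ 0 x → i = 0 ∨ i = j) {u : RPl k F → k} (hu : HF k F u) :
    ∃ u' : RPl k (IntermediateField.adjoin R {x}) → k, HF k (IntermediateField.adjoin R {x}) u' ∧
      ∀ w : RPl k N, u' ((w.comap ((φ 0).restrictScalars k)).comap
        ((IntermediateField.adjoin R {x}).val.restrictScalars k)) =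
        u (w.comap ((φ 0).restrictScalars k)) + u (w.comap ((φ j).restrictScalars k)) := by
  classical
  have hG : IsGalois R N := ⟨⟩
  let E := IntermediateField.adjoin R {x}
  let f : ULift.{u} (Fin 2) → (F →ₐ[k] N) := fun i => if i.down = 0 then (φ 0).restrictScalars k
    else (φ j).restrictScalars k
  let e : E →ₐ[k] N := ((φ 0).restrictScalars k).comp (E.val.restrictScalars k)
  let H : Set (N ≃ₐ[k] N) := {σ' | ∃ σ : N ≃ₐ[R] N, σ' = σ.restrictScalars k ∧ σ (φ 0 x) = φ 0 x}
  obtain ⟨u', hu', h⟩ := HF.fam (ι := ULift.{u} (Fin 2)) f e H (by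
    intro z hz
    have h1 : z ∈ IntermediateField.adjoin R {φ 0 x} := by
      rw [← IsGalois.fixedField_fixingSubgroup (IntermediateField.adjoin R {φ 0 x}),
        IntermediateField.mem_fixedField_iff]
      intro σ hσ
      rw [IntermediateField.mem_fixingSubgroup_iff] at hσ
      exact hz (σ.restrictScalars k) ⟨σ, rfl, hσ _ (IntermediateField.subset_adjoin R _ rfl)⟩
    have h2 : IntermediateField.adjoin R {φ 0 x} = E.map (φ 0) := by
      rw [IntermediateField.adjoin_map, Set.image_singleton]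
    rw [h2] at h1
    obtain ⟨y, hy, rfl⟩ := h1
    exact ⟨⟨y, hy⟩, rfl⟩) (by
    rintro σ' ⟨σ, rfl, hσ⟩
    have h0 : perm φ σ 0 = 0 ∨ perm φ σ 0 = j := by
      apply hx'
      rw [← perm_spec, hσ]
    have hj' : perm φ σ j = 0 ∨ perm φ σ j = j := by
      apply hx'
      rw [← perm_spec, ← hx, hσ]
    have hsp : ∀ i y, (σ.restrictScalars k) ((φ i) y) = (φ (perm φ σ i)) y := fun i y => perm_spec φ σ i y
    rcases h0 with h0 | h0
    · have h1 : perm φ σ j = j := by
        rcases hj' with h' | h'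
        · exfalso
          exact hj ((perm φ σ).injective (h'.trans h0.symm))
        · exact h'
      refine ⟨1, ?_⟩
      rintro ⟨i⟩ y
      fin_cases i
      · show σ (φ 0 y) = φ 0 y
        rw [perm_spec, h0]
      · show σ (φ j y) = φ j y
        rw [perm_spec, h1]
    · have h1 : perm φ σ j = 0 := by
        rcases hj' with h' | h'
        · exact h'
        · exfalso
          exact hj ((perm φ σ).injective (h'.trans h0.symm))
      refine ⟨Equiv.swap ⟨0⟩ ⟨1⟩, ?_⟩
      rintro ⟨i⟩ y
      fin_cases i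
      · show σ (φ 0 y) = f (Equiv.swap (⟨0⟩ : ULift.{u} (Fin 2)) ⟨1⟩ ⟨0⟩) y
        rw [Equiv.swap_apply_left, perm_spec, h0]
        rfl
      · show σ (φ j y) = f (Equiv.swap (⟨0⟩ : ULift.{u} (Fin 2)) ⟨1⟩ ⟨1⟩) y
        rw [Equiv.swap_apply_right, perm_spec, h1]
        rfl) hu
  refine ⟨u', hu', fun w => ?_⟩
  rw [RPl.comap_comap]
  have h1 := h w
  rw [← (Equiv.ulift.{u, 0} (α := Fin 2)).symm.sum_comp, Fin.sum_univ_two] at h1
  exact h1

end Pool.Agent.Helper50.KS
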