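import Mathlib
import Pool.Agent.Helper50.KS.Deg
import Pool.Agent.Helper70.KX.Dbl

/-!
# KS: the degenerate pairs
-/

set_option linter.unusedSectionVars false

namespace Pool.Agent.Helper50.KS

open Polynomial
open VC VF Function Pool.Agent.Helper21.TO Pool.Agent.Helper15.GT
open Pool.Agent.Helper15.KP (cub PS PT Dsc Dbin HF Tv CD QD Reg)

universe u

section deg

variable {k R F N : Type u} [Field k] [IsAlgClosed k] [CharZero k] [Field R] [CharZero R] [Field F] [Field N]
  [Algebra k R] [Algebra k F] [Algebra k N] [Algebra R F] [Algebra R N] [Algebra F N] [IsScalarTower k R F]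
  [IsScalarTower k R N] [IsScalarTower R F N] [Normal R N] [FiniteDimensional R N]
  (Q : Quart R F) (φ : Fin 4 ≃ (F →ₐ[R] N))

/-- the sum over a pair of embeddings which agree on `x` is constant, if all harmonic functions on `R (x)` are
constant -/
theorem pair_const (x : F) {j : Fin 4} (hj : j ≠ 0) (hx : φ 0 x = φ j x)
    (hx' : ∀ i, φ i x = φ 0 x → i = 0 ∨ i = j)
    (hc : ∀ u' : RPl k (IntermediateField.adjoin R {x}) → k, HF k (IntermediateField.adjoin R {x}) u' →
      ∀ w w', u' w = u' w') {u : RPl k F → k} (hu : HF k F u) : ∃ C : k,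
      ∀ w : RPl k N, u (w.comap ((φ 0).restrictScalars k)) + u (w.comap ((φ j).restrictScalars k)) = C := by
  obtain ⟨u', hu', h⟩ := pair_trace φ x hj hx hx' hu
  by_cases hN : Nonempty (RPl k N)
  · obtain ⟨w0⟩ := hN
    refine ⟨u (w0.comap ((φ 0).restrictScalars k)) + u (w0.comap ((φ j).restrictScalars k)), fun w => ?_⟩
    rw [← h, ← h]
    exact hc u' hu' _ _
  · exact ⟨0, fun w => absurd ⟨w⟩ hN⟩

theorem hdeg_of
    (hf : Q.a = 0 → ∀ u' : RPl k (IntermediateField.adjoin R {Q.z}) → k, HF k (IntermediateField.adjoin R {Q.z}) u' →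
      ∀ w w', u' w = u' w')
    (hg : Q.b = 0 → ∀ u' : RPl k (IntermediateField.adjoin R {Q.w}) → k, HF k (IntermediateField.adjoin R {Q.w}) u' →
      ∀ w w', u' w = u' w') :
    ∀ j : Fin 4, j ≠ 0 → Q.sl φ 0 j = 0 → ∀ u : RPl k F → k, HF k F u → ∃ C : k,
      ∀ w : RPl k N, u (w.comap ((φ 0).restrictScalars k)) + u (w.comap ((φ j).restrictScalars k)) = C := by
  intro j hj hs u hu
  rcases Q.deg_cases φ hs with h | h
  · refine pair_const φ Q.z hj h ?_ (hf (Q.deg_z φ (Ne.symm hj) h).1) hu
    intro i hi
    by_contra hcon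
    push Not at hcon
    exact Q.two_deg φ (Ne.symm hj) (Ne.symm hcon.1) (Ne.symm hcon.2) (Or.inl ⟨h, hi.symm⟩)
  · refine pair_const φ Q.w hj h ?_ (hg (Q.deg_w φ (Ne.symm hj) h).1) hu
    intro i hi
    by_contra hcon
    push Not at hcon
    exact Q.two_deg φ (Ne.symm hj) (Ne.symm hcon.1) (Ne.symm hcon.2) (Or.inr ⟨h, hi.symm⟩)

end deg

section dbl

variable {k R F : Type u} [Field k] [IsAlgClosed k] [CharZero k] [Field R] [Field F]
  [Algebra k R] [Algebra k F] [Algebra R F] [IsScalarTower k R F]

theorem Reg.of_hom {E : Type u} [Field E] [Algebra k E] (e : E →ₐ[k] F) (hq : Reg k F) : Reg k E :=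
  fun K _ _ hK f => hq K hK (e.comp f)

/-- harmonic functions on the double plane `x ^ 2 = f` are constant -/
theorem dbl_const {s t : R} (hst : AlgebraicIndependent k ![s, t])
    (hgen : IntermediateField.adjoin k (Set.range ![s, t]) = ⊤) (c : Fin 10 → k) (x : F)
    (hx : x ^ 2 = cub (fun i => algebraMap k F (c i)) (algebraMap R F s) (algebraMap R F t)) (hq : Reg k F) :
    ∀ u' : RPl k (IntermediateField.adjoin R {x}) → k, HF k (IntermediateField.adjoin R {x}) u' →
      ∀ w w', u' w = u' w' := by
  intro u' hu' w w'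
  let E := IntermediateField.adjoin R {x}
  have hxE : x ∈ E := IntermediateField.subset_adjoin R _ rfl
  have hst' : AlgebraicIndependent k ![algebraMap R E s, algebraMap R E t] := by
    have h1 := hst.map' (f := IsScalarTower.toAlgHom k R E) (algebraMap R E).injective
    convert h1 using 1
    funext i
    fin_cases i <;> rfl
  refine Pool.Agent.Helper70.KX.dbl (F := E) (algebraMap R E s) (algebraMap R E t) ⟨x, hxE⟩ c hst' ?_ ?_
    (Reg.of_hom (E.val.restrictScalars k) hq) hu' w w'
  · apply Subtype.ext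
    show x ^ 2 = _
    rw [hx]
    unfold cub
    rfl
  · have hR : ∀ r : R, algebraMap R E r ∈ IntermediateField.adjoin k
        {algebraMap R E s, algebraMap R E t, (⟨x, hxE⟩ : E)} := by
      intro r
      have hr : r ∈ IntermediateField.adjoin k (Set.range ![s, t]) := by
        rw [hgen]
        trivial
      have h2 : (IsScalarTower.toAlgHom k R E) r ∈
          (IntermediateField.adjoin k (Set.range ![s, t])).map (IsScalarTower.toAlgHom k R E) :=
        ⟨r, hr, rfl⟩
      rw [IntermediateField.adjoin_map] at h2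
      refine IntermediateField.adjoin.mono k _ _ ?_ h2
      rintro _ ⟨_, ⟨i, rfl⟩, rfl⟩
      fin_cases i
      · exact Or.inl rfl
      · exact Or.inr (Or.inl rfl)
    rw [eq_top_iff]
    rintro ⟨y, hy⟩ -
    -- `R (x)` is the field generated by `x` over `R`
    induction hy using IntermediateField.adjoin_induction with
    | mem y hy =>
      obtain rfl : y = x := hy
      exact IntermediateField.subset_adjoin k _ (Or.inr (Or.inr rfl))
    | algebraMap r => exact hR r
    | add y z hy hz h1 h2 => exact add_mem h1 h2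
    | inv y hy h1 => exact inv_mem h1
    | mul y z hy hz h1 h2 => exact mul_mem h1 h2

end dbl

end Pool.Agent.Helper50.KS
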