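import Mathlib
import Pool.Agent.Helper50.KS.Qd2
import Pool.Agent.Helper83.KPA.Coord

/-!
# KS: the structure `QD` of the surface `z ^ 2 = a w + f`, `w ^ 2 = b z + g`
-/

set_option linter.unusedSectionVars false

namespace Pool.Agent.Helper50.KS

open Polynomial
open VC VF Function Pool.Agent.Helper21.TO Pool.Agent.Helper15.GT
open Pool.Agent.Helper15.KP (cub PS PT Dsc Dbin HF Tv CD QD Reg Cl)

universe u

section coord

variable {k R : Type u} [Field k] [IsAlgClosed k] [CharZero k] [Field R] [Algebra k R]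

/-- projective change of the coordinates -/
theorem exists_proj {s t : R} (hst : AlgebraicIndependent k ![s, t])
    (hgen : IntermediateField.adjoin k {s, t} = ⊤) (N : Matrix (Fin 3) (Fin 3) k) (hN : N.det ≠ 0) :
    ∃ s1 t1 D : R, AlgebraicIndependent k ![s1, t1] ∧ IntermediateField.adjoin k (Set.range ![t1, s1]) = ⊤ ∧
      ∀ i, D * (![s, t, 1] : Fin 3 → R) i =
        algebraMap k R (N i 0) * s1 + algebraMap k R (N i 1) * t1 + algebraMap k R (N i 2) := by
  classical
  set p : Fin 3 → R := ![s, t, 1] with hp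
  have hp2 : p 2 = 1 := rfl
  let w : Fin 3 → R := fun i => ∑ j, algebraMap k R (N⁻¹ i j) * p j
  have hw : ∀ i, w i = algebraMap k R (N⁻¹ i 0) * s + algebraMap k R (N⁻¹ i 1) * t + algebraMap k R (N⁻¹ i 2) := by
    intro i
    show ∑ j, algebraMap k R (N⁻¹ i j) * p j = _
    rw [Fin.sum_univ_three]
    simp [hp]
  have hNu : IsUnit N.det := isUnit_iff_ne_zero.2 hN
  have hNw : ∀ i, algebraMap k R (N i 0) * w 0 + algebraMap k R (N i 1) * w 1 + algebraMap k R (N i 2) * w 2 = p i := by
    intro i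
    have h1 : ∀ j, N i 0 * N⁻¹ 0 j + N i 1 * N⁻¹ 1 j + N i 2 * N⁻¹ 2 j = if i = j then 1 else 0 := by
      intro j
      have h2 := congrFun (congrFun (N.mul_nonsing_inv hNu) i) j
      rw [Matrix.mul_apply, Fin.sum_univ_three, Matrix.one_apply] at h2
      exact h2
    have h3 : ∀ j, algebraMap k R (N i 0) * algebraMap k R (N⁻¹ 0 j) + algebraMap k R (N i 1) * algebraMap k R (N⁻¹ 1 j) +
        algebraMap k R (N i 2) * algebraMap k R (N⁻¹ 2 j) = if i = j then 1 else 0 := by
      intro j
      have := congrArg (algebraMap k R) (h1 j)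
      simp only [map_add, map_mul, apply_ite (algebraMap k R), map_one, map_zero] at this
      exact this
    rw [hw, hw, hw]
    have h4 : algebraMap k R (N i 0) * (algebraMap k R (N⁻¹ 0 0) * s + algebraMap k R (N⁻¹ 0 1) * t + algebraMap k R (N⁻¹ 0 2)) +
        algebraMap k R (N i 1) * (algebraMap k R (N⁻¹ 1 0) * s + algebraMap k R (N⁻¹ 1 1) * t + algebraMap k R (N⁻¹ 1 2)) +
        algebraMap k R (N i 2) * (algebraMap k R (N⁻¹ 2 0) * s + algebraMap k R (N⁻¹ 2 1) * t + algebraMap k R (N⁻¹ 2 2)) =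
        (if i = 0 then 1 else 0) * s + (if i = 1 then 1 else 0) * t + (if i = 2 then 1 else 0) := by
      linear_combination s * h3 0 + t * h3 1 + h3 2
    rw [h4]
    fin_cases i <;> simp [hp]
  have hw2 : w 2 ≠ 0 := by
    intro h0
    have h1 := hw 2
    rw [h0] at h1
    have h2 : MvPolynomial.aeval ![s, t] (MvPolynomial.C (N⁻¹ 2 0) * MvPolynomial.X 0 +
        MvPolynomial.C (N⁻¹ 2 1) * MvPolynomial.X 1 + MvPolynomial.C (N⁻¹ 2 2) : MvPolynomial (Fin 2) k) = 0 := by
      simp only [map_add, map_mul, MvPolynomial.aeval_C, MvPolynomial.aeval_X]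
      exact h1.symm
    have h3 := (algebraicIndependent_iff.1 hst) _ h2
    have e0 := congrArg (MvPolynomial.eval (![0, 0] : Fin 2 → k)) h3
    have e1 := congrArg (MvPolynomial.eval (![1, 0] : Fin 2 → k)) h3
    have e2 := congrArg (MvPolynomial.eval (![0, 1] : Fin 2 → k)) h3
    simp only [map_add, map_mul, MvPolynomial.eval_C, MvPolynomial.eval_X, map_zero] at e0 e1 e2
    have f2 : N⁻¹ 2 2 = 0 := by simpa using e0
    have f0 : N⁻¹ 2 0 = 0 := by simpa [f2] using e1
    have f1 : N⁻¹ 2 1 = 0 := by simpa [f2] using e2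
    have h5 := congrFun (congrFun (N.nonsing_inv_mul hNu) 2) 2
    rw [Matrix.mul_apply, Fin.sum_univ_three, Matrix.one_apply, f0, f1, f2] at h5
    simp at h5
  have hD : ∀ i, (w 2)⁻¹ * p i =
      algebraMap k R (N i 0) * (w 0 / w 2) + algebraMap k R (N i 1) * (w 1 / w 2) + algebraMap k R (N i 2) := by
    intro i
    rw [← hNw i]
    field_simp
  have htop : IntermediateField.adjoin k {w 0 / w 2, w 1 / w 2} = ⊤ := by
    rw [eq_top_iff, ← hgen, IntermediateField.adjoin_le_iff]
    set L := IntermediateField.adjoin k {w 0 / w 2, w 1 / w 2} with hL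
    have hs1 : w 0 / w 2 ∈ L := IntermediateField.subset_adjoin k _ (Or.inl rfl)
    have ht1 : w 1 / w 2 ∈ L := IntermediateField.subset_adjoin k _ (Or.inr rfl)
    have hDi : ∀ i, (w 2)⁻¹ * p i ∈ L := by
      intro i
      rw [hD]
      exact add_mem (add_mem (mul_mem (L.algebraMap_mem _) hs1) (mul_mem (L.algebraMap_mem _) ht1)) (L.algebraMap_mem _)
    have hD2 : (w 2)⁻¹ ∈ L := by
      have := hDi 2
      rwa [hp2, mul_one] at this
    have hpi : ∀ i, p i ∈ L := by
      intro i
      have h1 : p i = ((w 2)⁻¹)⁻¹ * ((w 2)⁻¹ * p i) := by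
        rw [inv_mul_cancel_left₀ (inv_ne_zero hw2)]
      rw [h1]
      exact mul_mem (inv_mem hD2) (hDi i)
    rintro y (hy | hy)
    · rw [hy]
      exact hpi 0
    · rw [Set.mem_singleton_iff] at hy
      rw [hy]
      exact hpi 1
  refine ⟨w 0 / w 2, w 1 / w 2, (w 2)⁻¹, ?_, ?_, hD⟩
  · exact Pool.Agent.Helper70.KX.ind_of_gen hst (Pool.Agent.Helper70.KX.adjoin_pair_isAlgebraic htop)
  · rw [← htop]
    congr 1
    ext x
    simp [Fin.exists_fin_two, or_comm, eq_comm]

/-- the generators of a subfield generate the subfield -/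
theorem gen_self {F : Type u} [Field F] [Algebra k F] (s t : F) :
    IntermediateField.adjoin k {(⟨s, IntermediateField.subset_adjoin k _ (Or.inl rfl)⟩ : IntermediateField.adjoin k {s, t}),
      (⟨t, IntermediateField.subset_adjoin k _ (Or.inr rfl)⟩ : IntermediateField.adjoin k {s, t})} = ⊤ := by
  rw [eq_top_iff]
  rintro ⟨y, hy⟩ -
  induction hy using IntermediateField.adjoin_induction with
  | mem y hy =>
    rcases hy with hy | hy
    · subst hy
      exact IntermediateField.subset_adjoin k _ (Or.inl rfl)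
    · rw [Set.mem_singleton_iff] at hy
      subst hy
      exact IntermediateField.subset_adjoin k _ (Or.inr rfl)
  | algebraMap r => exact IntermediateField.algebraMap_mem _ r
  | add y z hy hz h1 h2 => exact add_mem h1 h2
  | inv y hy h1 => exact inv_mem h1
  | mul y z hy hz h1 h2 => exact mul_mem h1 h2

end coord

end Pool.Agent.Helper50.KS

namespace Pool.Agent.Helper15.KP

open Polynomial
open VC VF Function Pool.Agent.Helper21.TO Pool.Agent.Helper15.GT
open Pool.Agent.Helper50.KS (Quart exists_N exists_qd0 hdeg_of dbl_const exists_proj gen_self)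

universe u

variable {k : Type u} [Field k] [IsAlgClosed k] [CharZero k]

/-- FIELD. The data. -/
theorem exists_qd {F : Type u} [Field F] [Algebra k F] (s t z w : F) (a b f g : MvPolynomial (Fin 3) k)
    (ha : a.IsHomogeneous 1) (hb : b.IsHomogeneous 1) (hf : f.IsHomogeneous 3) (hg : g.IsHomogeneous 3)
    (hst : AlgebraicIndependent k ![s, t])
    (hz : z ^ 2 = MvPolynomial.aeval ![s, t, 1] a * w + MvPolynomial.aeval ![s, t, 1] f)
    (hw : w ^ 2 = MvPolynomial.aeval ![s, t, 1] b * z + MvPolynomial.aeval ![s, t, 1] g)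
    (hgen : IntermediateField.adjoin k {s, t, z, w} = ⊤)
    (hdeg : Module.finrank (IntermediateField.adjoin k {s, t}) F = 4)
    (hsm : ∃ l : k, ∀ p : Fin 3 → k, (∀ i, MvPolynomial.eval p (MvPolynomial.pderiv i (Cl a b f g l)) = 0) → p = 0)
    (hq : Reg k F) :
    ∃ (N F6 G : Type u) (_ : Field N) (_ : Algebra k N) (_ : Field F6) (_ : Algebra k F6) (_ : Group G)
      (_ : Fintype G) (D : QD k F N F6 G) (A B : k[X]), A.natDegree ≤ 8 ∧ B.natDegree ≤ 12 ∧
        PS D.cd.c = X ^ 2 * A ∧ PT D.cd.c = X ^ 3 * B := by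
  classical
  obtain ⟨M, c, A, B, hM, h0, hbn, hds, hA, hB, hS, hT, hcoord⟩ := Pool.Agent.Helper83.KPA.exists_coord a b f g ha hb hf hg hsm
  let R := IntermediateField.adjoin k {s, t}
  have hsR : s ∈ R := IntermediateField.subset_adjoin k _ (Or.inl rfl)
  have htR : t ∈ R := IntermediateField.subset_adjoin k _ (Or.inr rfl)
  let s0 : R := ⟨s, hsR⟩
  let t0 : R := ⟨t, htR⟩
  have hR0 : CharZero R := charZero_of_injective_algebraMap (algebraMap k R).injective
  have hgen0 : IntermediateField.adjoin k {s0, t0} = ⊤ := gen_self s t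
  have hvec : (fun i => algebraMap R F ((![s0, t0, 1] : Fin 3 → R) i)) = ![s, t, 1] := by
    funext i
    match i with
    | 0 => rfl
    | 1 => rfl
    | 2 => rfl
  have hvec2 : (fun i => R.val ((![s0, t0] : Fin 2 → R) i)) = ![s, t] := by
    funext i
    match i with
    | 0 => rfl
    | 1 => rfl
  have hst0 : AlgebraicIndependent k ![s0, t0] := by
    refine AlgebraicIndependent.of_comp (R.val) ?_
    rw [← hvec2] at hst
    exact hst
  have hv : ∀ P : MvPolynomial (Fin 3) k, algebraMap R F (MvPolynomial.aeval ![s0, t0, 1] P) =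
      MvPolynomial.aeval ![s, t, 1] P := by
    intro P
    rw [← MvPolynomial.aeval_algebraMap_apply, ← hvec]
    rfl
  let Q : Quart R F := {
    a := MvPolynomial.aeval ![s0, t0, 1] a
    b := MvPolynomial.aeval ![s0, t0, 1] b
    f := MvPolynomial.aeval ![s0, t0, 1] f
    g := MvPolynomial.aeval ![s0, t0, 1] g
    z := z
    w := w
    pt := by
      rw [hv, hv, hv, hv]
      exact ⟨hz, hw⟩
    gen := by
      apply IntermediateField.restrictScalars_injective k
      rw [IntermediateField.adjoin_adjoin_left, IntermediateField.restrictScalars_top, ← hgen]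
      have e : ({s, t} ∪ {z, w} : Set F) = {s, t, z, w} := by
        rw [Set.insert_union, Set.singleton_union]
      rw [e]
    deg := hdeg }
  have hfd : FiniteDimensional R F := Q.fd
  obtain ⟨N, iN, ikN, iRN, iFN, hs1, hs2, hnor, hfdN⟩ := exists_N k R F
  obtain ⟨φ0, -⟩ := Q.exists_enum N (IsScalarTower.toAlgHom R F N)
  obtain ⟨φ, hφ⟩ := Q.exists_enum1 φ0
  obtain ⟨s1, t1, D, hst1, hgen1, hD⟩ := exists_proj hst0 hgen0 M hM
  have hgen0' : IntermediateField.adjoin k (Set.range ![s0, t0]) = ⊤ := by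
    rw [Matrix.range_cons, Matrix.range_cons, Matrix.range_empty, Set.union_empty, Set.singleton_union]
    exact hgen0
  have hcub : ∀ P : MvPolynomial (Fin 3) k, P.IsHomogeneous 3 → MvPolynomial.aeval ![s, t, 1] P =
      cub (fun i => algebraMap k F (Pool.Agent.Helper83.KPA.cf P i)) (algebraMap R F s0) (algebraMap R F t0) := by
    intro P hP
    rw [Pool.Agent.Helper83.KPA.cf_spec hP]
    unfold cub Pool.Agent.Helper83.PC.cub
    simp only [Matrix.cons_val_zero, Matrix.cons_val_one, Matrix.cons_val]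
    have e1 : algebraMap R F s0 = s := rfl
    have e2 : algebraMap R F t0 = t := rfl
    rw [e1, e2]
    ring
  obtain ⟨F6, G, iF6, ikF6, iG, iFG, QDD, hQ⟩ := exists_qd0 Q φ hφ hst1 hgen1 c h0 hbn hds (by
    intro τ hτ
    have h1 := hcoord N (τ ^ 2) (algebraMap R N s1) (algebraMap R N t1) (algebraMap R N D)
      (fun i => algebraMap R N ((![s0, t0, 1] : Fin 3 → R) i)) (by
        intro i
        rw [← map_mul, hD, map_add, map_add, map_mul, map_mul, ← IsScalarTower.algebraMap_apply,
          ← IsScalarTower.algebraMap_apply, ← IsScalarTower.algebraMap_apply])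
    rw [h1]
    have h2 : ∀ P : MvPolynomial (Fin 3) k, MvPolynomial.aeval (fun i => algebraMap R N ((![s0, t0, 1] : Fin 3 → R) i)) P =
        algebraMap R N (MvPolynomial.aeval ![s0, t0, 1] P) := fun P => MvPolynomial.aeval_algebraMap_apply _ _ _
    rw [h2, h2, h2, h2]
    have h3 : algebraMap R N ((![s0, t0, 1] : Fin 3 → R) 2) = 1 := map_one _
    rw [h3]
    have h4 : algebraMap R N (MvPolynomial.aeval ![s0, t0, 1] b) ^ 2 * τ ^ 6 -
      4 * algebraMap R N (MvPolynomial.aeval ![s0, t0, 1] g) * τ ^ 4 +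
      4 * algebraMap R N (MvPolynomial.aeval ![s0, t0, 1] f) * τ ^ 2 -
      algebraMap R N (MvPolynomial.aeval ![s0, t0, 1] a) ^ 2 = 0 := hτ
    linear_combination algebraMap R N D ^ 3 * h4) (hdeg_of Q φ (by
      intro hQa
      refine dbl_const hst0 hgen0' (Pool.Agent.Helper83.KPA.cf f) z ?_ hq
      have h5 : MvPolynomial.aeval ![s, t, 1] a = 0 := by
        rw [← hv, show MvPolynomial.aeval ![s0, t0, 1] a = 0 from hQa, map_zero]
      rw [hz, h5, zero_mul, zero_add]
      exact hcub f hf) (by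
      intro hQb
      refine dbl_const hst0 hgen0' (Pool.Agent.Helper83.KPA.cf g) w ?_ hq
      have h5 : MvPolynomial.aeval ![s, t, 1] b = 0 := by
        rw [← hv, show MvPolynomial.aeval ![s0, t0, 1] b = 0 from hQb, map_zero]
      rw [hw, h5, zero_mul, zero_add]
      exact hcub g hg))
  refine ⟨N, F6, G, iN, ikN, iF6, ikF6, iG, iFG, QDD, A, B, hA, hB, ?_, ?_⟩
  · rw [hQ]
    exact hS
  · rw [hQ]
    exact hT

end Pool.Agent.Helper15.KP
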