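import Mathlib
import Pool.Agent.Helper9.NS
import Pool.Agent.Helper15.KP.Defs2

/-!
# KS: the ten coefficients of a cubic form in three variables
-/

set_option linter.unusedSectionVars false

namespace Pool.Agent.Helper50.KS

open Pool.Agent.Helper15.KP

/-- the exponents of the ten monomials, in the order of `Helper15.KP.cub` -/
noncomputable def ex : Fin 10 → (Fin 3 →₀ ℕ) :=
  ![Finsupp.single 0 3, Finsupp.single 0 2 + Finsupp.single 1 1, Finsupp.single 0 2 + Finsupp.single 2 1,
    Finsupp.single 0 1 + Finsupp.single 1 2, Finsupp.single 0 1 + Finsupp.single 1 1 + Finsupp.single 2 1,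
    Finsupp.single 0 1 + Finsupp.single 2 2, Finsupp.single 1 3, Finsupp.single 1 2 + Finsupp.single 2 1,
    Finsupp.single 1 1 + Finsupp.single 2 2, Finsupp.single 2 3]

section cf

variable {R : Type*} [CommRing R]

/-- the coefficients of a cubic form -/
noncomputable def cf (P : MvPolynomial (Fin 3) R) : Fin 10 → R := fun i => P.coeff (ex i)

/-- the value of the cubic form with the coefficients `c` -/
def cubh (c : Fin 10 → R) (x y z : R) : R :=
  c 0 * x ^ 3 + c 1 * x ^ 2 * y + c 2 * x ^ 2 * z + c 3 * x * y ^ 2 + c 4 * x * y * z + c 5 * x * z ^ 2 +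
    c 6 * y ^ 3 + c 7 * y ^ 2 * z + c 8 * y * z ^ 2 + c 9 * z ^ 3

theorem cubh_one (c : Fin 10 → R) (x y : R) : cubh c x y 1 = cub c x y := by
  unfold cubh cub
  ring

/-- substitution of the matrix `M` -/
noncomputable def sb (M : Matrix (Fin 3) (Fin 3) R) (P : MvPolynomial (Fin 3) R) : MvPolynomial (Fin 3) R :=
  MvPolynomial.aeval (fun i => ∑ j, MvPolynomial.C (M i j) * MvPolynomial.X j) P

end cf

/-- The cubic `λ³ u b² - 4 λ² g + 4 λ f - u a²` over `k[λ]`. -/
noncomputable def ClX {k : Type*} [Field k] (u a b f g : MvPolynomial (Fin 3) k) :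
    MvPolynomial (Fin 3) (Polynomial k) :=
  MvPolynomial.C (Polynomial.X ^ 3) * MvPolynomial.map Polynomial.C u * MvPolynomial.map Polynomial.C b ^ 2 -
    MvPolynomial.C (4 * Polynomial.X ^ 2) * MvPolynomial.map Polynomial.C g +
    MvPolynomial.C (4 * Polynomial.X) * MvPolynomial.map Polynomial.C f -
    MvPolynomial.map Polynomial.C u * MvPolynomial.map Polynomial.C a ^ 2

end Pool.Agent.Helper50.KS
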