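import Mathlib
import Pool.Agent.Helper50.KS.Qd2
import Pool.Agent.Helper15.KP.Dbl2

/-!
# KS: the degenerate pairs of the second family
-/

set_option linter.unusedSectionVars false

namespace Pool.Agent.Helper50.KS

open Polynomial
open VC VF Function Pool.Agent.Helper21.TO Pool.Agent.Helper15.GT
open Pool.Agent.Helper15.KP (cub PS PT Dsc Dbin HF Tv CD QD Reg)

universe u

variable {k R F : Type u} [Field k] [IsAlgClosed k] [CharZero k] [Field R] [Field F]
  [Algebra k R] [Algebra k F] [Algebra R F] [IsScalarTower k R F]

/-- harmonic functions on the double cover `t x ^ 2 = f0 t ^ 2 + f2 (s) t + f4 (s)` are constant -/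
theorem dbl2_const {s t : R} (hst : AlgebraicIndependent k ![s, t])
    (hgen : IntermediateField.adjoin k (Set.range ![s, t]) = ⊤) (f0 : k) (f2 f4 : k[X]) (h2 : f2.natDegree ≤ 2)
    (h4 : f4.natDegree ≤ 4) (x : F)
    (hx : algebraMap R F t * x ^ 2 = algebraMap k F f0 * algebraMap R F t ^ 2 +
      aeval (algebraMap R F s) f2 * algebraMap R F t + aeval (algebraMap R F s) f4) (hq : Reg k F) :
    ∀ u' : RPl k (IntermediateField.adjoin R {x}) → k, HF k (IntermediateField.adjoin R {x}) u' →
      ∀ w w', u' w = u' w' := by
  intro u' hu' w w'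
  let E := IntermediateField.adjoin R {x}
  have hxE : x ∈ E := IntermediateField.subset_adjoin R _ rfl
  let xE : E := ⟨x, hxE⟩
  have hst' : AlgebraicIndependent k ![algebraMap R E s, algebraMap R E t] := by
    have h1 := hst.map' (f := IsScalarTower.toAlgHom k R E) (algebraMap R E).injective
    convert h1 using 1
    funext i
    fin_cases i <;> rfl
  have ht0 : algebraMap R E t ≠ 0 := by
    intro h
    have h1 := hst'.ne_zero 1
    exact h1 h
  have hxx : algebraMap R E t * xE ^ 2 = algebraMap k E f0 * algebraMap R E t ^ 2 +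
      aeval (algebraMap R E s) f2 * algebraMap R E t + aeval (algebraMap R E s) f4 := by
    apply Subtype.ext
    have e1 : ∀ p : k[X], ((aeval (algebraMap R E s) p : E) : F) = aeval (algebraMap R F s) p := by
      intro p
      exact (aeval_algHom_apply (E.val.restrictScalars k) (algebraMap R E s) p).symm
    show algebraMap R F t * x ^ 2 = algebraMap k F f0 * algebraMap R F t ^ 2 +
      ((aeval (algebraMap R E s) f2 : E) : F) * algebraMap R F t + ((aeval (algebraMap R E s) f4 : E) : F)
    rw [e1, e1, hx]
  refine Pool.Agent.Helper15.KP.dbl2 (F := E) (algebraMap R E s) (algebraMap R E t) (algebraMap R E t * xE) f0 f2 f4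
    h2 h4 hst' ?_ ?_ (Reg.of_hom (E.val.restrictScalars k) hq) hu' w w'
  · rw [← hxx]
    ring
  · set K := IntermediateField.adjoin k ({algebraMap R E s, algebraMap R E t, algebraMap R E t * xE} : Set E) with hK
    have hR : ∀ r : R, algebraMap R E r ∈ K := by
      intro r
      have hr : r ∈ IntermediateField.adjoin k (Set.range ![s, t]) := by
        rw [hgen]
        trivial
      have h2 : (IsScalarTower.toAlgHom k R E) r ∈
          (IntermediateField.adjoin k (Set.range ![s, t])).map (IsScalarTower.toAlgHom k R E) :=
        ⟨r, hr, rfl⟩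
      rw [IntermediateField.adjoin_map] at h2
      refine IntermediateField.adjoin.mono k _ _ ?_ h2
      rintro _ ⟨_, ⟨i, rfl⟩, rfl⟩
      fin_cases i
      · exact Or.inl rfl
      · exact Or.inr (Or.inl rfl)
    have hxK : xE ∈ K := by
      have h1 : algebraMap R E t * xE ∈ K := IntermediateField.subset_adjoin k _ (Or.inr (Or.inr rfl))
      have h2 := mul_mem (inv_mem (hR t)) h1
      rwa [inv_mul_cancel_left₀ ht0] at h2
    rw [eq_top_iff]
    rintro ⟨y, hy⟩ -
    induction hy using IntermediateField.adjoin_induction with
    | mem y hy =>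
      obtain rfl : y = x := hy
      exact hxK
    | algebraMap r => exact hR r
    | add y z hy hz h1 h2 => exact add_mem h1 h2
    | inv y hy h1 => exact inv_mem h1
    | mul y z hy hz h1 h2 => exact mul_mem h1 h2

end Pool.Agent.Helper50.KS
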